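import Pool.Agent.LibKS.Defs

set_option autoImplicit false

namespace LibKS

/-- Formal linear combinations of words over the field with `p` elements. -/
abbrev FA (p k : ℕ) : Type := List (Fin k × Bool) →₀ ZMod p

/-- Fox derivative of a word with respect to the `i`-th generator. -/
noncomputable def fox (p : ℕ) {k : ℕ} (i : Fin k) : List (Fin k × Bool) → FA p k
  | [] => 0
  | (j, b) :: u => (if j = i then (if b then Finsupp.single u 1
      else - Finsupp.single ((j, b) :: u) 1) else 0) + fox p i u

/-- Fox derivative of a formal combination of words. -/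
noncomputable def foxL (p : ℕ) {k : ℕ} (i : Fin k) : FA p k →ₗ[ZMod p] FA p k :=
  Finsupp.linearCombination (ZMod p) (fox p i)

/-- Magnus coefficients of a formal combination of words. -/
noncomputable def mag (p : ℕ) {k : ℕ} : List (Fin k) → FA p k →ₗ[ZMod p] ZMod p
  | [] => Finsupp.linearCombination (ZMod p) (fun _ => (1 : ZMod p))
  | i :: I => (mag p I).comp (foxL p i)

open Classical in
/-- The formal combination `f` vanishes on the permutation module of `Ω`, for all tuples of
elements of `P`. -/
def Van {p k : ℕ} {G : Type} [Group G] (P : Subgroup G) (Ω : Type) [MulAction G Ω]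
    (f : FA p k) : Prop :=
  ∀ g : Fin k → G, (∀ i, g i ∈ P) → ∀ v w : Ω,
    Finsupp.linearCombination (ZMod p) (fun u => if W g u • v = w then (1 : ZMod p) else 0) f = 0

/-- The formal combination `f` vanishes on the module `V`, for all tuples of elements of `P`. -/
def VanL {p k : ℕ} {G : Type} [Group G] (P : Subgroup G) {V : Type} [AddCommGroup V]
    [Module (ZMod p) V] (ρ : G →* Module.End (ZMod p) V) (f : FA p k) : Prop :=
  ∀ g : Fin k → G, (∀ i, g i ∈ P) → ∀ v : V,
    Finsupp.linearCombination (ZMod p) (fun u => ρ (W g u) v) f = 0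

theorem F0_W_map {k : ℕ} {G G' : Type*} [Group G] [Group G'] (f : G →* G') (g : Fin k → G)
    (u : List (Fin k × Bool)) : W (fun i => f (g i)) u = f (W g u) := by
  induction u with
  | nil => simp [W]
  | cons a u ih =>
    obtain ⟨i, b⟩ := a
    cases b <;> simp [W, ih]

theorem F0_W_mem {k : ℕ} {G : Type*} [Group G] {P : Subgroup G} {g : Fin k → G}
    (hg : ∀ i, g i ∈ P) (u : List (Fin k × Bool)) : W g u ∈ P := by
  induction u with
  | nil => simpa [W] using P.one_mem
  | cons a u ih =>
    obtain ⟨i, b⟩ := a
    cases b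
    · simpa [W] using P.mul_mem (P.inv_mem (hg i)) ih
    · simpa [W] using P.mul_mem (hg i) ih

theorem F0_W_one {k : ℕ} {G : Type*} [Group G] (u : List (Fin k × Bool)) :
    W (fun _ => (1 : G)) u = 1 := by
  induction u with
  | nil => simp [W]
  | cons a u ih =>
    obtain ⟨i, b⟩ := a
    cases b <;> simp [W, ih]

theorem F0_W_lift {k : ℕ} {G : Type*} [Group G] (g : Fin k → G) (u : List (Fin k × Bool)) :
    W g u = FreeGroup.lift g (FreeGroup.mk u) := by
  induction u with
  | nil => simp [W, ← FreeGroup.one_eq_mk]
  | cons a u ih =>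
    obtain ⟨i, b⟩ := a
    have h : FreeGroup.mk ((i, b) :: u) = FreeGroup.mk [(i, b)] * FreeGroup.mk u := by
      rw [FreeGroup.mul_mk]; rfl
    rw [h, map_mul, ← ih]
    cases b <;> simp [W, FreeGroup.lift_mk]

theorem foxL_single (p : ℕ) {k : ℕ} (i : Fin k) (u : List (Fin k × Bool)) (c : ZMod p) :
    foxL p i (Finsupp.single u c) = c • fox p i u := by
  simp [foxL]

theorem mag_nil_single (p : ℕ) {k : ℕ} (u : List (Fin k × Bool)) (c : ZMod p) :
    mag p [] (Finsupp.single u c) = c := by
  simp [mag]

theorem mag_cons_nil (p : ℕ) {k : ℕ} (i : Fin k) (I : List (Fin k)) (c : ZMod p) :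
    mag p (i :: I) (Finsupp.single [] c) = 0 := by
  simp [mag, foxL_single, fox]

theorem mag_cons_true (p : ℕ) {k : ℕ} (i j : Fin k) (I : List (Fin k))
    (u : List (Fin k × Bool)) :
    mag p (i :: I) (Finsupp.single ((j, true) :: u) 1) =
      mag p (i :: I) (Finsupp.single u 1) +
        (if j = i then mag p I (Finsupp.single u 1) else 0) := by
  by_cases h : j = i <;> simp [mag, foxL_single, fox, h, add_comm]

theorem mag_cons_false (p : ℕ) {k : ℕ} (i j : Fin k) (I : List (Fin k))
    (u : List (Fin k × Bool)) :
    mag p (i :: I) (Finsupp.single ((j, false) :: u) 1) =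
      mag p (i :: I) (Finsupp.single u 1) -
        (if j = i then mag p I (Finsupp.single ((j, false) :: u) 1) else 0) := by
  by_cases h : j = i
  · subst h
    simp only [mag, LinearMap.comp_apply, foxL_single, fox, one_smul, if_true, Bool.false_eq_true,
      if_false, map_add, map_neg]
    ring
  · simp [mag, foxL_single, fox, h]

end LibKS
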