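import Pool.Agent.LibKSF.F0

set_option autoImplicit false

namespace LibKS

private theorem F1_block {k : ℕ} (u : List (Fin k × Bool)) (hu : u ≠ [])
    (hred : FreeGroup.IsReduced u) :
    ∃ (j : Fin k) (b : Bool) (n : ℕ) (v : List (Fin k × Bool)),
      u = List.replicate (n + 1) (j, b) ++ v ∧ FreeGroup.IsReduced v ∧
        ∀ x ∈ v.head?, x.1 ≠ j := by
  induction u with
  | nil => exact absurd rfl hu
  | cons a u ih =>
    obtain ⟨j, b⟩ := a
    rcases u with _ | ⟨⟨j', b'⟩, w⟩
    · exact ⟨j, b, 0, [], by simp, by simp [FreeGroup.IsReduced], by simp⟩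
    · have h1 : (j = j' → b = b') ∧ FreeGroup.IsReduced ((j', b') :: w) := by
        simpa [FreeGroup.IsReduced] using hred
      by_cases hj : j = j'
      · obtain ⟨j'', b'', n, v, e, hv, hh⟩ := ih (by simp) h1.2
        rw [List.replicate_succ, List.cons_append] at e
        have e1 := (List.cons.inj e).1
        have e2 := h1.1 hj
        subst hj e2
        refine ⟨j, b, n + 1, v, ?_, hv, ?_⟩
        · rw [e, ← e1]
          simp [List.replicate_succ]
        · have : j'' = j := (Prod.mk.inj e1).1.symm
          subst this
          exact hh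
      · refine ⟨j, b, 0, (j', b') :: w, by simp, h1.2, ?_⟩
        intro x hx
        simp only [List.head?_cons, Option.mem_def, Option.some.injEq] at hx
        subst hx
        exact fun h => hj h.symm

private theorem F1_B (p : ℕ) {k : ℕ} (T : List (Fin k)) (v : List (Fin k × Bool)) (j : Fin k)
    (b : Bool) (hT : ∀ J : List (Fin k), mag p (J ++ T) (Finsupp.single v 1) = 0)
    (y : Fin k) (hy : y ≠ j) (n : ℕ) :
    ∀ J : List (Fin k), mag p (J ++ y :: T)
      (Finsupp.single (List.replicate n (j, b) ++ v) 1) = 0 := by
  induction n with
  | zero =>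
    intro J
    have := hT (J ++ [y])
    simpa using this
  | succ n ih =>
    intro J
    rw [List.replicate_succ, List.cons_append]
    cases b
    · induction J with
      | nil =>
        rw [List.nil_append, mag_cons_false, if_neg (Ne.symm hy)]
        simpa using ih []
      | cons i J ihJ =>
        rw [List.cons_append, mag_cons_false, ihJ]
        have := ih (i :: J)
        rw [List.cons_append] at this
        rw [this]
        simp
    · cases J with
      | nil =>
        rw [List.nil_append, mag_cons_true, if_neg (Ne.symm hy)]
        simpa using ih []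
      | cons i J =>
        rw [List.cons_append, mag_cons_true, ih J]
        have := ih (i :: J)
        rw [List.cons_append] at this
        rw [this]
        simp

private theorem F1_zero (p : ℕ) {k : ℕ} (I : List (Fin k)) (v : List (Fin k × Bool)) (j : Fin k)
    (b : Bool) (hI : ∀ x ∈ I.head?, x ≠ j) (n : ℕ) :
    mag p I (Finsupp.single (List.replicate n (j, b) ++ v) 1) =
      mag p I (Finsupp.single v 1) := by
  induction n with
  | zero => simp
  | succ n ih =>
    rw [← ih, List.replicate_succ, List.cons_append]
    rcases I with _ | ⟨i, I⟩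
    · rw [mag_nil_single, mag_nil_single]
    · have h : j ≠ i := fun h => hI i (by simp) h.symm
      cases b
      · rw [mag_cons_false, if_neg h, sub_zero]
      · rw [mag_cons_true, if_neg h, add_zero]

private theorem F1_A (p : ℕ) [Fact p.Prime] {k : ℕ} (I : List (Fin k)) (v : List (Fin k × Bool))
    (j : Fin k) (b : Bool) (hI : ∀ x ∈ I.head?, x ≠ j)
    (hc : mag p I (Finsupp.single v 1) ≠ 0)
    (hT : ∀ J : List (Fin k), mag p (J ++ j :: I) (Finsupp.single v 1) = 0) (n : ℕ) :
    ∃ q : ℕ, q ≤ n ∧ mag p (List.replicate (q + 1) j ++ I)
      (Finsupp.single (List.replicate (n + 1) (j, b) ++ v) 1) ≠ 0 := by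
  set A : ℕ → ℕ → ZMod p := fun q n => mag p (List.replicate q j ++ I)
      (Finsupp.single (List.replicate n (j, b) ++ v) 1) with hA
  set c : ZMod p := mag p I (Finsupp.single v 1) with hcdef
  have A0 : ∀ n, A 0 n = c := fun n => by
    simp only [hA, List.replicate_zero, List.nil_append]
    exact F1_zero p I v j b hI n
  have As : ∀ q, A (q + 1) 0 = 0 := fun q => by
    simp only [hA, List.replicate_zero, List.nil_append]
    have := hT (List.replicate q j)
    rw [List.replicate_succ', List.append_assoc]
    simpa using this
  cases b
  · have rec1 : ∀ q n, A (q + 1) (n + 1) = A (q + 1) n - A q (n + 1) := fun q n => by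
      simp only [hA]
      conv_lhs => rw [List.replicate_succ, List.cons_append, List.replicate_succ, List.cons_append]
      rw [mag_cons_false, if_pos rfl]
      rfl
    by_contra hcon
    push Not at hcon
    have hz : ∀ q, q ≤ n → A (q + 1) (n + 1) = 0 := fun q hq => hcon q hq
    have hb : ∀ t, t ≤ n + 1 → ∀ q, q ≤ n + 1 → A q (n + 1 - t) = (Nat.choose t q : ZMod p) * c := by
      intro t
      induction t with
      | zero =>
        intro _ q hq
        rcases q with _ | q
        · rw [A0]; simp
        · rw [Nat.sub_zero, hz q (by omega)]; simp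
      | succ t ih =>
        intro ht q hq
        rcases q with _ | q
        · rw [A0]; simp
        · have e : n + 1 - t = (n + 1 - (t + 1)) + 1 := by omega
          have h1 := rec1 q (n + 1 - (t + 1))
          rw [← e] at h1
          have h2 := ih (by omega) (q + 1) hq
          have h3 := ih (by omega) q (by omega)
          have h4 : A (q + 1) (n + 1 - (t + 1)) = A (q + 1) (n + 1 - t) + A q (n + 1 - t) := by
            rw [h1]; ring
          rw [h4, h2, h3, Nat.choose_succ_succ]
          push_cast
          ring
    have := hb (n + 1) le_rfl (n + 1) le_rfl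
    rw [Nat.sub_self, As n, Nat.choose_self, Nat.cast_one, one_mul] at this
    exact hc this.symm
  · have rec1 : ∀ q n, A (q + 1) (n + 1) = A (q + 1) n + A q n := fun q n => by
      simp only [hA]
      conv_lhs => rw [List.replicate_succ, List.cons_append, List.replicate_succ, List.cons_append]
      rw [mag_cons_true, if_pos rfl]
      rfl
    have hz : ∀ n q, n < q → A q n = 0 := by
      intro n
      induction n with
      | zero =>
        intro q hq
        obtain ⟨q, rfl⟩ : ∃ q', q = q' + 1 := ⟨q - 1, by omega⟩
        exact As q
      | succ n ih =>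
        intro q hq
        obtain ⟨q, rfl⟩ : ∃ q', q = q' + 1 := ⟨q - 1, by omega⟩
        rw [rec1, ih (q + 1) (by omega), ih q (by omega), add_zero]
    have hd : ∀ n, A n n = c := by
      intro n
      induction n with
      | zero => exact A0 0
      | succ n ih => rw [rec1, hz n (n + 1) (by omega), ih, zero_add]
    exact ⟨n, le_rfl, by rw [← hd (n + 1)] at hc; exact hc⟩

private theorem F1_main (p : ℕ) [Fact p.Prime] {k : ℕ} : ∀ (N : ℕ) (u : List (Fin k × Bool)),
    u.length ≤ N → FreeGroup.IsReduced u →
    ∃ I : List (Fin k), I.head? = u.head?.map Prod.fst ∧ I.length ≤ u.length ∧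
      mag p I (Finsupp.single u 1) ≠ 0 ∧
      ∀ (J : List (Fin k)) (y : Fin k), (∀ x ∈ I.head?, y ≠ x) →
        mag p (J ++ y :: I) (Finsupp.single u 1) = 0 := by
  intro N
  induction N with
  | zero =>
    intro u hu hred
    obtain rfl : u = [] := List.length_eq_zero_iff.1 (by omega)
    refine ⟨[], rfl, by simp, ?_, ?_⟩
    · rw [mag_nil_single]; exact one_ne_zero
    · intro J y _
      rcases J with _ | ⟨i, J⟩
      · rw [List.nil_append, mag_cons_nil]
      · rw [List.cons_append, mag_cons_nil]
  | succ N ih =>
    intro u hu hred
    by_cases h0 : u = []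
    · exact ih u (by simp [h0]) hred
    obtain ⟨j, b, n, v, rfl, hv, hh⟩ := F1_block u h0 hred
    have hlen : v.length ≤ N := by
      simp only [List.length_append, List.length_replicate] at hu
      omega
    obtain ⟨I, hI1, hI2, hI3, hI4⟩ := ih v hlen hv
    have hIj : ∀ x ∈ I.head?, x ≠ j := by
      intro x hx
      rw [hI1] at hx
      rw [Option.mem_def, Option.map_eq_some_iff] at hx
      obtain ⟨z, hz, rfl⟩ := hx
      exact hh z hz
    have hT : ∀ J : List (Fin k), mag p (J ++ j :: I) (Finsupp.single v 1) = 0 :=
      fun J => hI4 J j fun x hx => (hIj x hx).symm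
    obtain ⟨q, hq, hne⟩ := F1_A p I v j b hIj hI3 hT n
    refine ⟨List.replicate (q + 1) j ++ I, ?_, ?_, hne, ?_⟩
    · rw [List.replicate_succ, List.cons_append, List.replicate_succ, List.cons_append]
      simp
    · simp only [List.length_append, List.length_replicate]
      omega
    · intro J y hy
      have hyj : y ≠ j := by
        apply hy j
        rw [List.replicate_succ, List.cons_append]
        simp
      refine F1_B p (List.replicate (q + 1) j ++ I) v j b ?_ y hyj (n + 1) J
      intro J'
      have := hT (J' ++ List.replicate q j)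
      rw [List.replicate_succ', List.append_assoc]
      simpa using this

/-- A nonempty reduced word has a nonzero Magnus coefficient of positive degree at most its
length. -/
theorem exists_mag_ne_zero (p : ℕ) [Fact p.Prime] {k : ℕ} (u : List (Fin k × Bool))
    (hu : u ≠ []) (hred : FreeGroup.IsReduced u) :
    ∃ I : List (Fin k), I ≠ [] ∧ I.length ≤ u.length ∧ mag p I (Finsupp.single u 1) ≠ 0 := by
  obtain ⟨I, h1, h2, h3, -⟩ := F1_main p u.length u le_rfl hred
  refine ⟨I, ?_, h2, h3⟩
  rintro rfl
  rcases u with _ | ⟨a, u⟩
  · exact hu rfl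
  · simp at h1

end LibKS
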