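import Pool.Agent.LibKS.A2b

set_option autoImplicit false

namespace LibKS

/-- The subgroup generated by the conjugates of `S` other than `v`. -/
def co {H : Type} [Group H] {S : Subgroup H} (v : Om S) : Subgroup H :=
  ⨆ w : {w : Om S // w ≠ v}, w.1.1

variable {p : ℕ} {F : GoodClass p}

theorem Om.isComp {H : Type} [Group H] {S : Subgroup H} (hS : IsComp F S) (v : Om S) :
    IsComp F v.1 := by
  obtain ⟨T, g, rfl⟩ := v
  exact hS.map_conj g

theorem le_co {H : Type} [Group H] {S : Subgroup H} {v w : Om S} (h : v ≠ w) :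
    v.1 ≤ co w :=
  le_iSup (fun w' : {w' : Om S // w' ≠ w} => w'.1.1) ⟨v, h⟩

theorem co_commute [Fact p.Prime] {H : Type} [Group H] {S : Subgroup H} (hS : IsComp F S)
    (v : Om S) : ∀ s ∈ v.1, ∀ t ∈ co v, Commute s t := by
  intro s hs t ht
  have hle : co v ≤ Subgroup.centralizer ({s} : Set H) := by
    refine iSup_le fun w x hx => ?_
    rw [Subgroup.mem_centralizer_iff]
    intro y hy
    rw [Set.mem_singleton_iff.1 hy]
    rcases (Om.isComp hS v).eq_or_commute (Om.isComp hS w.1) with h | h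
    · exact absurd (Subtype.ext h.symm) w.2
    · exact h s hs x hx
  exact Subgroup.mem_centralizer_iff.1 (hle ht) s rfl

theorem co_disjoint [Fact p.Prime] {H : Type} [Group H] {S : Subgroup H} (hS : IsComp F S)
    (v : Om S) : v.1 ⊓ co v = ⊥ := by
  rw [eq_bot_iff]
  rintro x ⟨hx1, hx2⟩
  rw [Subgroup.mem_bot]
  exact (Om.isComp hS v).center_trivial hx1 (fun y hy => (co_commute hS v y hy x hx2).symm)

theorem sup_co {H : Type} [Group H] {S : Subgroup H} (v : Om S) :
    v.1 ⊔ co v = ⨆ w : Om S, w.1 := by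
  refine le_antisymm (sup_le (le_iSup (fun w : Om S => w.1) v)
    (iSup_le fun w => le_iSup (fun w : Om S => w.1) w.1)) ?_
  refine iSup_le fun w => ?_
  by_cases h : w = v
  · rw [h]; exact le_sup_left
  · exact (le_co h).trans le_sup_right

private theorem F10_conj {H : Type} [Group H] {S : Subgroup H} (g : H) (v : Om S) {x : H}
    (hx : x ∈ v.1) : g * x * g⁻¹ ∈ (g • v).1 := by
  rw [Om.smul_coe]
  exact ⟨x, hx, rfl⟩

theorem iSup_Om_normal {H : Type} [Group H] (S : Subgroup H) :
    (⨆ w : Om S, w.1 : Subgroup H).Normal := by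
  refine ⟨fun x hx g => ?_⟩
  have hle : (⨆ w : Om S, w.1 : Subgroup H) ≤
      (⨆ w : Om S, w.1 : Subgroup H).comap (MulAut.conj g).toMonoidHom := by
    refine iSup_le fun w y hy => ?_
    rw [Subgroup.mem_comap]
    exact (le_iSup (fun w : Om S => w.1) (g • w)) (F10_conj g w hy)
  exact hle hx

theorem conj_mem_co {H : Type} [Group H] {S : Subgroup H} (g : H) (v : Om S) {x : H}
    (hx : x ∈ co v) : g * x * g⁻¹ ∈ co (g • v) := by
  have hle : co v ≤ (co (g • v)).comap (MulAut.conj g).toMonoidHom := by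
    refine iSup_le fun w y hy => ?_
    rw [Subgroup.mem_comap]
    have hne : g • w.1 ≠ g • v := fun h => w.2 (smul_left_cancel g h)
    exact le_co hne (F10_conj g w.1 hy)
  exact hle hx

theorem smul_eq_of_mem_iSup [Fact p.Prime] {H : Type} [Group H] {S : Subgroup H}
    (hS : IsComp F S) {x : H} (hx : x ∈ (⨆ w : Om S, w.1 : Subgroup H)) (v : Om S) :
    x • v = v := by
  have hle : (⨆ w : Om S, w.1 : Subgroup H) ≤ layer F H :=
    iSup_le fun w => le_sSup (Om.isComp hS w)
  apply Subtype.ext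
  rw [Om.smul_coe]
  exact (Om.isComp hS v).map_conj_of_mem_layer (hle hx)

end LibKS
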