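import Pool.Agent.LibKSF.F5

set_option autoImplicit false

namespace LibKS

variable {p : ℕ}

/-- products of elements of two commuting subgroups -/
def F10b_prod {B : Type} [Group B] (S T : Subgroup B)
    (hST : ∀ s ∈ S, ∀ t ∈ T, Commute s t) : Subgroup B where
  carrier := {x | ∃ s ∈ S, ∃ t ∈ T, x = s * t}
  one_mem' := ⟨1, S.one_mem, 1, T.one_mem, by simp⟩
  mul_mem' := by
    rintro _ _ ⟨s, hs, t, ht, rfl⟩ ⟨s', hs', t', ht', rfl⟩
    refine ⟨s * s', S.mul_mem hs hs', t * t', T.mul_mem ht ht', ?_⟩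
    have h : t * s' = s' * t := (hST s' hs' t ht).eq.symm
    calc s * t * (s' * t') = s * (t * s') * t' := by group
      _ = s * (s' * t) * t' := by rw [h]
      _ = s * s' * (t * t') := by group
  inv_mem' := by
    rintro _ ⟨s, hs, t, ht, rfl⟩
    refine ⟨s⁻¹, S.inv_mem hs, t⁻¹, T.inv_mem ht, ?_⟩
    rw [(hST s hs t ht).eq, mul_inv_rev]

theorem F10b_mem_sup {B : Type} [Group B] {S T : Subgroup B}
    (hST : ∀ s ∈ S, ∀ t ∈ T, Commute s t) {x : B} (hx : x ∈ S ⊔ T) :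
    ∃ s ∈ S, ∃ t ∈ T, x = s * t := by
  have h : S ⊔ T ≤ F10b_prod S T hST :=
    sup_le (fun s hs => ⟨s, hs, 1, T.one_mem, by simp⟩) (fun t ht => ⟨1, S.one_mem, t, ht, by simp⟩)
  exact h hx

/-- The Sylow subgroup of a product of two commuting subgroups with trivial intersection. -/
theorem exists_mul_of_mem_sup [Fact p.Prime] {H B : Type} [Group H] [Finite H] [Group B]
    (π : H →* B) (hπ : Function.Surjective π) (P : Sylow p H) (S T : Subgroup B)
    (hST : ∀ s ∈ S, ∀ t ∈ T, Commute s t) (hdisj : S ⊓ T = ⊥) (hN : (S ⊔ T).Normal)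
    {n : H} (hn : n ∈ P) (hn' : π n ∈ S ⊔ T) :
    ∃ a ∈ P, π a ∈ S ∧ ∃ q ∈ P, π q ∈ T ∧ n = a * q := by
  have hfin : Finite B := Finite.of_surjective π hπ
  -- the image of `P`
  have hPb : MaxP p ((P : Subgroup H).map π) ⊤ := by
    have h := Sylow.maxP (P.mapSurjective hπ)
    rwa [Sylow.coe_mapSurjective] at h
  have hY : MaxP p ((P : Subgroup H).map π ⊓ (S ⊔ T)) (S ⊔ T) :=
    hPb.inf le_top (fun m _ c hc => hN.conj_mem c hc m)
  have hYS : MaxP p ((P : Subgroup H).map π ⊓ (S ⊔ T) ⊓ S) S := by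
    refine hY.inf le_sup_left (fun m hm c hc => ?_)
    obtain ⟨s, hs, t, ht, rfl⟩ := F10b_mem_sup hST hm
    have h : t * c = c * t := (hST c hc t ht).eq.symm
    have h2 : s * t * c * (s * t)⁻¹ = s * c * s⁻¹ := by
      calc s * t * c * (s * t)⁻¹ = s * (t * c) * (s * t)⁻¹ := by group
        _ = s * (c * t) * (s * t)⁻¹ := by rw [h]
        _ = s * c * s⁻¹ := by group
    rw [h2]
    exact S.mul_mem (S.mul_mem hs hc) (S.inv_mem hs)
  obtain ⟨s, hs, t, ht, hst⟩ := F10b_mem_sup hST hn'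
  -- the projection of `Y` on `S`
  let X : Subgroup B :=
    { carrier := {x | x ∈ S ∧ ∃ t ∈ T, x * t ∈ (P : Subgroup H).map π ⊓ (S ⊔ T)}
      one_mem' := ⟨S.one_mem, 1, T.one_mem, by rw [mul_one]; exact Subgroup.one_mem _⟩
      mul_mem' := by
        rintro x x' ⟨hx, t, ht, h⟩ ⟨hx', t', ht', h'⟩
        refine ⟨S.mul_mem hx hx', t * t', T.mul_mem ht ht', ?_⟩
        have h1 := Subgroup.mul_mem _ h h'
        have h2 : t * x' = x' * t := (hST x' hx' t ht).eq.symm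
        have h3 : x * t * (x' * t') = x * x' * (t * t') := by
          calc x * t * (x' * t') = x * (t * x') * t' := by group
            _ = x * (x' * t) * t' := by rw [h2]
            _ = x * x' * (t * t') := by group
        rwa [h3] at h1
      inv_mem' := by
        rintro x ⟨hx, t, ht, h⟩
        refine ⟨S.inv_mem hx, t⁻¹, T.inv_mem ht, ?_⟩
        have h1 := Subgroup.inv_mem _ h
        rwa [(hST x hx t ht).eq, mul_inv_rev] at h1 }
  have hXS : X ≤ S := fun x hx => hx.1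
  have hXP : IsPGroup p X := by
    rintro ⟨x, hx, t, ht, h⟩
    obtain ⟨k, hk⟩ := hY.isP ⟨x * t, h⟩
    refine ⟨k, ?_⟩
    have hk1 : (x * t) ^ p ^ k = 1 := by
      have := congrArg Subtype.val hk
      simpa using this
    rw [(hST x hx t ht).mul_pow] at hk1
    have hk2 : x ^ p ^ k = (t ^ p ^ k)⁻¹ := eq_inv_of_mul_eq_one_left hk1
    have hk3 : x ^ p ^ k ∈ S ⊓ T :=
      ⟨S.pow_mem hx _, by rw [hk2]; exact T.inv_mem (T.pow_mem ht _)⟩
    rw [hdisj, Subgroup.mem_bot] at hk3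
    apply Subtype.ext
    simpa using hk3
  have hle : (P : Subgroup H).map π ⊓ (S ⊔ T) ⊓ S ≤ X := by
    rintro x ⟨hx1, hx2⟩
    exact ⟨hx2, 1, T.one_mem, by rwa [mul_one]⟩
  have hXeq := hYS.max X hXS hXP hle
  have hsX : s ∈ X := ⟨hs, t, ht, by
    rw [← hst]
    exact ⟨⟨n, hn, rfl⟩, hn'⟩⟩
  rw [hXeq] at hsX
  obtain ⟨a, haP, hasn⟩ := hsX.1.1
  refine ⟨a, haP, by rw [hasn]; exact hs, a⁻¹ * n, P.mul_mem (P.inv_mem haP) hn, ?_, by group⟩
  rw [map_mul, map_inv, hasn, hst]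
  have : s⁻¹ * (s * t) = t := by group
  rw [this]
  exact ht

end LibKS
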