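import Mathlib

set_option autoImplicit false

namespace LibKS

/-- In a finite group `D` mapping onto a nonabelian simple group of order divisible by `p`, the
subgroup generated by the `p`-elements contains an element of order prime to `p` with nontrivial
image. -/
theorem exists_coprime_element (p : ℕ) [Fact p.Prime] {D S : Type} [Group D] [Finite D]
    [Group S] (hS : IsSimpleGroup S) (hna : ∃ a b : S, ¬ Commute a b) (hp : p ∣ Nat.card S)
    (φ : D →* S) (hφ : Function.Surjective φ) :
    ∃ s ∈ Subgroup.closure {x : D | ∃ n : ℕ, x ^ p ^ n = 1},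
      Nat.Coprime p (orderOf s) ∧ φ s ≠ 1 := by
  have hpp : p.Prime := Fact.out
  have : Finite S := Finite.of_surjective φ hφ
  set O : Subgroup D := Subgroup.closure {x : D | ∃ n : ℕ, x ^ p ^ n = 1} with hO
  have hOn : O.Normal := by
    refine ⟨fun x hx g => ?_⟩
    rw [hO] at hx
    induction hx using Subgroup.closure_induction with
    | mem x hx =>
      obtain ⟨n, hn⟩ := hx
      refine Subgroup.subset_closure ⟨n, ?_⟩
      rw [conj_pow, hn]
      simp
    | one => simp [O.one_mem]
    | mul x y _ _ h1 h2 =>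
      have : g * (x * y) * g⁻¹ = (g * x * g⁻¹) * (g * y * g⁻¹) := by group
      rw [this]
      exact O.mul_mem h1 h2
    | inv x _ h1 =>
      have : g * x⁻¹ * g⁻¹ = (g * x * g⁻¹)⁻¹ := by group
      rw [this]
      exact O.inv_mem h1
  have hmapn : (O.map φ).Normal := hOn.map φ hφ
  -- the image is nontrivial
  have hmap : O.map φ = ⊤ := by
    rcases hS.eq_bot_or_eq_top_of_normal (O.map φ) hmapn with h | h
    · exfalso
      have : Fintype S := Fintype.ofFinite S
      obtain ⟨y, hy⟩ := exists_prime_orderOf_dvd_card' (G := S) p hp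
      obtain ⟨x, hx⟩ := hφ y
      obtain ⟨a, m, hm, hxm⟩ := Nat.exists_eq_pow_mul_and_not_dvd (orderOf_pos x).ne' p
        hpp.one_lt.ne'
      have h1 : x ^ m ∈ O := by
        refine Subgroup.subset_closure ⟨a, ?_⟩
        rw [← pow_mul, mul_comm, ← hxm, pow_orderOf_eq_one]
      have h2 : φ (x ^ m) ∈ O.map φ := ⟨_, h1, rfl⟩
      rw [h, Subgroup.mem_bot, map_pow, hx] at h2
      exact hm (hy ▸ orderOf_dvd_of_pow_eq_one h2)
    · exact h
  -- the simple group is not a `p`-group
  have hnp : ¬ IsPGroup p S := by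
    intro hP
    have : Nontrivial S := hS.toNontrivial
    have := hP.center_nontrivial
    rcases hS.eq_bot_or_eq_top_of_normal (Subgroup.center S) inferInstance with h | h
    · rw [h] at this
      exact not_subsingleton _ (inferInstance : Subsingleton (⊥ : Subgroup S))
    · obtain ⟨a, b, hab⟩ := hna
      have ha : a ∈ Subgroup.center S := by rw [h]; trivial
      exact hab ((Subgroup.mem_center_iff.1 ha b).symm)
  rw [IsPGroup] at hnp
  push Not at hnp
  obtain ⟨y, hy⟩ := hnp
  have hyO : y ∈ O.map φ := by rw [hmap]; trivial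
  obtain ⟨t, htO, rfl⟩ := hyO
  obtain ⟨a, m, hm, htm⟩ := Nat.exists_eq_pow_mul_and_not_dvd (orderOf_pos t).ne' p
    hpp.one_lt.ne'
  refine ⟨t ^ p ^ a, O.pow_mem htO _, ?_, ?_⟩
  · rw [orderOf_pow_of_dvd (pow_pos hpp.pos a).ne' (by rw [htm]; exact Dvd.intro _ rfl), htm,
      Nat.mul_div_cancel_left _ (pow_pos hpp.pos a)]
    exact (Nat.Prime.coprime_iff_not_dvd hpp).2 hm
  · rw [map_pow]
    exact hy a

end LibKS
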