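import Pool.Agent.LibKSF.F8

set_option autoImplicit false

namespace LibKS

/-- Choice of the quotient module. -/
theorem exists_quotient (p : ℕ) [Fact p.Prime] {H : Type} [Group H] [Finite H]
    {A : Subgroup H} (hAn : A.Normal) (hA : IsPGroup p A)
    {V : Type} [AddCommGroup V] [Module (ZMod p) V] [Finite V]
    (ρ : H →* Module.End (ZMod p) V) {s : H} (hs : Nat.Coprime p (orderOf s))
    (hne : ∃ v, ρ s v ≠ v) :
    ∃ (U : Type) (_ : AddCommGroup U) (_ : Module (ZMod p) U) (_ : Finite U)
      (σ : H →* Module.End (ZMod p) U) (φ : V →ₗ[ZMod p] U),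
      Function.Surjective φ ∧ (∀ h v, φ (ρ h v) = σ h (φ v)) ∧
      ∃ u : U, (∀ a ∈ A, σ a u = u) ∧ σ s u ≠ u := by
  classical
  let T : Set (Submodule (ZMod p) V) :=
    {X | (∀ h : H, ∀ x ∈ X, ρ h x ∈ X) ∧ ∃ v, ρ s v - v ∉ X}
  have hTfin : T.Finite := by
    have : Finite (Submodule (ZMod p) V) :=
      Finite.of_injective (fun X : Submodule (ZMod p) V => (X : Set V)) SetLike.coe_injective
    exact Set.toFinite T
  have hTne : T.Nonempty := by
    refine ⟨⊥, ?_, ?_⟩
    · intro h x hx
      rw [Submodule.mem_bot] at hx ⊢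
      rw [hx, map_zero]
    · obtain ⟨v, hv⟩ := hne
      exact ⟨v, fun h => hv (sub_eq_zero.mp ((Submodule.mem_bot _).mp h))⟩
  obtain ⟨X, hX⟩ := hTfin.exists_maximal hTne
  obtain ⟨⟨hXst, hXs⟩, hXmax⟩ := hX
  let σ : H →* Module.End (ZMod p) (V ⧸ X) :=
    { toFun := fun h => X.mapQ X (ρ h) (fun v hv => hXst h v hv)
      map_one' := by
        apply Submodule.linearMap_qext
        ext v
        simp
      map_mul' := by
        intro a b
        apply Submodule.linearMap_qext
        ext v
        simp }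
  have hσ : ∀ (h : H) (v : V), σ h (X.mkQ v) = X.mkQ (ρ h v) := by
    intro h v
    rfl
  refine ⟨V ⧸ X, inferInstance, inferInstance, Finite.of_surjective _ X.mkQ_surjective, σ, X.mkQ,
    X.mkQ_surjective, fun h v => (hσ h v).symm, ?_⟩
  by_contra hcon
  push Not at hcon
  -- the submodule of `A`-fixed vectors of the quotient
  have hfinX : Finite (V ⧸ X) := Finite.of_surjective _ X.mkQ_surjective
  let W : Submodule (ZMod p) (V ⧸ X) :=
    { carrier := {u | ∀ a ∈ A, σ a u = u}
      add_mem' := by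
        intro x y hx hy a ha
        rw [map_add, hx a ha, hy a ha]
      zero_mem' := by
        intro a ha
        rw [map_zero]
      smul_mem' := by
        intro c x hx a ha
        rw [map_smul, hx a ha] }
  have hWmem : ∀ u, u ∈ W ↔ ∀ a ∈ A, σ a u = u := fun u => Iff.rfl
  have hWst : ∀ (h : H), ∀ u ∈ W, σ h u ∈ W := by
    intro h u hu
    rw [hWmem] at hu ⊢
    intro a ha
    have h1 : h⁻¹ * a * h ∈ A := by
      have := hAn.conj_mem a ha h⁻¹
      rwa [inv_inv] at this
    have h2 := hu _ h1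
    calc σ a (σ h u) = σ (a * h) u := by rw [map_mul, Module.End.mul_apply]
      _ = σ (h * (h⁻¹ * a * h)) u := by
          congr 2
          group
      _ = σ h (σ (h⁻¹ * a * h) u) := by rw [map_mul, Module.End.mul_apply]
      _ = σ h u := by rw [h2]
  have hXtop : ¬ (⊤ : Submodule (ZMod p) V) ≤ X := by
    intro h
    obtain ⟨v, hv⟩ := hXs
    exact hv (h trivial)
  obtain ⟨v0, -, hv0, hv0'⟩ := exists_fixed_mod_subgroup p hA ρ X ⊤
    (fun h _ u hu => hXst h u hu) (fun _ _ _ _ => trivial) hXtop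
  have hle : X ≤ W.comap X.mkQ := by
    intro x hx
    rw [Submodule.mem_comap]
    have : X.mkQ x = 0 := by simpa using hx
    rw [this]
    exact W.zero_mem
  have hnot : ¬ (W.comap X.mkQ ≤ X) := by
    intro h
    apply hv0
    apply h
    rw [Submodule.mem_comap, hWmem]
    intro a ha
    rw [hσ]
    have := hv0' a ha
    rw [Submodule.mkQ_apply, Submodule.mkQ_apply, Submodule.Quotient.eq]
    exact this
  have hnotT : W.comap X.mkQ ∉ T := fun h => hnot (hXmax h hle)
  have hst' : ∀ h : H, ∀ x ∈ W.comap X.mkQ, ρ h x ∈ W.comap X.mkQ := by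
    intro h x hx
    rw [Submodule.mem_comap] at hx ⊢
    rw [← hσ]
    exact hWst h _ hx
  have hall : ∀ v, ρ s v - v ∈ W.comap X.mkQ := by
    by_contra hc
    push Not at hc
    exact hnotT ⟨hst', hc⟩
  obtain ⟨v, hv⟩ := hXs
  apply hv
  have h1 := coprime_trivial p σ hs W (fun w hw => hcon w hw) (v := X.mkQ v) (by
    have := hall v
    rw [Submodule.mem_comap, map_sub, ← hσ] at this
    exact this)
  rw [hσ, Submodule.mkQ_apply, Submodule.mkQ_apply, Submodule.Quotient.eq] at h1
  exact h1

end LibKS
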