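import Pool.Agent.LibKSF.F8

set_option autoImplicit false

namespace LibKS

/-- Thompson's lemma. -/
theorem thompson (p : ℕ) [Fact p.Prime] {H : Type} [Group H] [Finite H]
    {A Q : Subgroup H} (hAn : A.Normal) (hAQ : A ≤ Q) (hQ : IsPGroup p Q)
    {U : Type} [AddCommGroup U] [Module (ZMod p) U] [Finite U]
    (ρ : H →* Module.End (ZMod p) U) {s : H} (hs : Nat.Coprime p (orderOf s))
    (hsQ : ∀ q ∈ Q, s * q * s⁻¹ * q⁻¹ ∈ A)
    (hfix : ∀ u : U, (∀ q ∈ Q, ρ q u = u) → ρ s u = u)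
    {u : U} (hu : ∀ a ∈ A, ρ a u = u) : ρ s u = u := by
  classical
  -- fixed vectors of `A`
  let W : Submodule (ZMod p) U :=
    { carrier := {u | ∀ a ∈ A, ρ a u = u}
      add_mem' := by
        intro x y hx hy a ha
        rw [map_add, hx a ha, hy a ha]
      zero_mem' := by
        intro a ha
        rw [map_zero]
      smul_mem' := by
        intro c x hx a ha
        rw [map_smul, hx a ha] }
  have hWmem : ∀ u, u ∈ W ↔ ∀ a ∈ A, ρ a u = u := fun u => Iff.rfl
  have hWst : ∀ (h : H), ∀ u ∈ W, ρ h u ∈ W := by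
    intro h u hu
    rw [hWmem] at hu ⊢
    intro a ha
    have h1 : h⁻¹ * a * h ∈ A := by
      have := hAn.conj_mem a ha h⁻¹
      rwa [inv_inv] at this
    have h2 := hu _ h1
    calc ρ a (ρ h u) = ρ (a * h) u := by rw [map_mul, Module.End.mul_apply]
      _ = ρ (h * (h⁻¹ * a * h)) u := by
          congr 2
          group
      _ = ρ h (ρ (h⁻¹ * a * h) u) := by rw [map_mul, Module.End.mul_apply]
      _ = ρ h u := by rw [h2]
  -- on `W` the element `s` commutes with `Q`
  have hcomm : ∀ q ∈ Q, ∀ w ∈ W, ρ s (ρ q w) = ρ q (ρ s w) := by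
    intro q hq w hw
    have h1 := hsQ q hq
    have h2 : ρ (s * q * s⁻¹ * q⁻¹) (ρ q (ρ s w)) = ρ q (ρ s w) :=
      hWst q _ (hWst s _ hw) _ h1
    rw [← h2]
    have e : s * q = (s * q * s⁻¹ * q⁻¹) * (q * s) := by group
    calc ρ s (ρ q w) = ρ (s * q) w := by rw [map_mul, Module.End.mul_apply]
      _ = ρ ((s * q * s⁻¹ * q⁻¹) * (q * s)) w := by rw [← e]
      _ = _ := by rw [map_mul, map_mul ρ q s, Module.End.mul_apply, Module.End.mul_apply]
  -- powers of `s` commute with `Q` on `W`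
  have hcommn : ∀ n : ℕ, ∀ q ∈ Q, ∀ w ∈ W, ρ (s ^ n) (ρ q w) = ρ q (ρ (s ^ n) w) := by
    intro n
    induction n with
    | zero =>
      intro q _ w _
      simp
    | succ n ih =>
      intro q hq w hw
      rw [pow_succ', map_mul, Module.End.mul_apply, Module.End.mul_apply, ih q hq w hw,
        hcomm q hq _ (hWst _ _ hw)]
  -- the norm map
  let Nm : U → U := fun w => ∑ i ∈ Finset.range (orderOf s), ρ (s ^ i) w
  let W' : Submodule (ZMod p) U :=
    { carrier := {w | w ∈ W ∧ ∑ i ∈ Finset.range (orderOf s), ρ (s ^ i) w = 0}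
      add_mem' := by
        rintro x y ⟨hx, hx'⟩ ⟨hy, hy'⟩
        refine ⟨W.add_mem hx hy, ?_⟩
        simp only [map_add, Finset.sum_add_distrib, hx', hy', add_zero]
      zero_mem' := by
        refine ⟨W.zero_mem, ?_⟩
        simp
      smul_mem' := by
        rintro c x ⟨hx, hx'⟩
        refine ⟨W.smul_mem c hx, ?_⟩
        simp only [map_smul, ← Finset.smul_sum, hx', smul_zero] }
  have hW'mem : ∀ w, w ∈ W' ↔ w ∈ W ∧ ∑ i ∈ Finset.range (orderOf s), ρ (s ^ i) w = 0 :=
    fun w => Iff.rfl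
  have hW'st : ∀ q ∈ Q, ∀ w ∈ W', ρ q w ∈ W' := by
    intro q hq w hw
    rw [hW'mem] at hw ⊢
    refine ⟨hWst q w hw.1, ?_⟩
    have h1 : ∑ i ∈ Finset.range (orderOf s), ρ (s ^ i) (ρ q w) =
        ρ q (∑ i ∈ Finset.range (orderOf s), ρ (s ^ i) w) := by
      rw [map_sum]
      exact Finset.sum_congr rfl (fun i _ => hcommn i q hq w hw.1)
    rw [h1, hw.2, map_zero]
  by_contra hcon
  have hW'ne : ¬ W' ≤ ⊥ := by
    intro hle
    have hmem : ρ s u - u ∈ W' := by
      rw [hW'mem]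
      refine ⟨W.sub_mem (hWst s u hu) hu, ?_⟩
      have h1 : ∀ i, ρ (s ^ i) (ρ s u - u) = ρ (s ^ (i + 1)) u - ρ (s ^ i) u := by
        intro i
        rw [map_sub, pow_succ, map_mul, Module.End.mul_apply]
      simp only [h1]
      rw [Finset.sum_range_sub (fun i => ρ (s ^ i) u), pow_orderOf_eq_one, pow_zero, sub_self]
    have := hle hmem
    rw [Submodule.mem_bot, sub_eq_zero] at this
    exact hcon this
  obtain ⟨v, hv1, hv2, hv3⟩ := exists_fixed_mod_subgroup p hQ ρ ⊥ W'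
    (fun h _ u hu => by
      rw [Submodule.mem_bot] at hu ⊢
      rw [hu, map_zero]) hW'st hW'ne
  have hv4 : ∀ q ∈ Q, ρ q v = v := by
    intro q hq
    have := hv3 q hq
    rwa [Submodule.mem_bot, sub_eq_zero] at this
  have hv5 := hfix v hv4
  have hv6 : ∀ i : ℕ, ρ (s ^ i) v = v := by
    intro i
    induction i with
    | zero => simp
    | succ i ih => rw [pow_succ, map_mul, Module.End.mul_apply, hv5, ih]
  rw [hW'mem] at hv1
  have hv7 := hv1.2
  simp only [hv6, Finset.sum_const, Finset.card_range] at hv7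
  have h8 : ((orderOf s : ℕ) : ZMod p) • v = 0 := by
    rw [Nat.cast_smul_eq_nsmul]
    exact hv7
  have h5 : IsUnit ((orderOf s : ℕ) : ZMod p) := (ZMod.isUnit_iff_coprime _ _).mpr hs.symm
  have h9 : v = 0 := (h5.smul_eq_zero).mp h8
  exact hv2 ((Submodule.mem_bot _).mpr h9)

end LibKS
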