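import Pool.Agent.LibKSF.F6
import Pool.Agent.LibKSF.F7
import Pool.Agent.LibKSF.F8b
import Pool.Agent.LibKSF.F8c

set_option autoImplicit false

namespace LibKS

/-- The key lemma. -/
theorem key_lemma (p : ℕ) [Fact p.Prime] {H B : Type} [Group H] [Finite H] [Group B]
    (π : H →* B) (hπ : Function.Surjective π) (P : Sylow p H)
    (hA : ((P : Subgroup H) ⊓ π.ker).Normal) (S T : Subgroup B)
    (hST : ∀ s ∈ S, ∀ t ∈ T, Commute s t) (hdisj : S ⊓ T = ⊥) (hS : IsSimpleGroup S)
    (hna : ∃ a ∈ S, ∃ b ∈ S, ¬ Commute a b) (hp : p ∣ Nat.card S) (hN : (S ⊔ T).Normal)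
    {V : Type} [AddCommGroup V] [Module (ZMod p) V] [Finite V]
    (ρ : H →* Module.End (ZMod p) V) (hρ : Function.Injective ρ) :
    ∃ (U : Type) (_ : AddCommGroup U) (_ : Module (ZMod p) U) (_ : Finite U)
      (σ : H →* Module.End (ZMod p) U) (φ : V →ₗ[ZMod p] U),
      Function.Surjective φ ∧ (∀ h v, φ (ρ h v) = σ h (φ v)) ∧
      ∃ u : U, (∀ q ∈ (P : Subgroup H) ⊓ T.comap π, σ q u = u) ∧
        ∃ n ∈ (P : Subgroup H) ⊓ (S ⊔ T).comap π, σ n u ≠ u := by
  classical
  set C : Subgroup H := T.comap π with hCdef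
  set N : Subgroup H := (S ⊔ T).comap π with hNdef
  set Q : Subgroup H := (P : Subgroup H) ⊓ C with hQdef
  have hNn : N.Normal := hN.comap π
  have hCN : C ≤ N := Subgroup.comap_mono le_sup_right
  have hTN : ∀ b ∈ S ⊔ T, ∀ t ∈ T, b * t * b⁻¹ ∈ T := by
    have hle : S ⊔ T ≤ Subgroup.normalizer (T : Set B) := by
      refine sup_le ?_ Subgroup.le_normalizer
      intro s hs
      rw [Subgroup.mem_normalizer_iff]
      intro t
      constructor
      · intro ht
        have := (hST s hs t ht).eq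
        rw [this, mul_assoc, mul_inv_cancel, mul_one]
        exact ht
      · intro ht
        have h1 := (hST s hs _ ht).eq
        have h2 : s * t * s⁻¹ = t := by
          have h3 : s⁻¹ * (s * (s * t * s⁻¹)) * s = s⁻¹ * ((s * t * s⁻¹) * s) * s := by rw [h1]
          have h4 : s⁻¹ * (s * (s * t * s⁻¹)) * s = s * t := by group
          have h5 : s⁻¹ * ((s * t * s⁻¹) * s) * s = t * s := by group
          rw [h4, h5] at h3
          rw [h3, mul_assoc, mul_inv_cancel, mul_one]
        rw [h2] at ht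
        exact ht
    intro b hb t ht
    have := hle hb
    rw [Subgroup.mem_normalizer_iff] at this
    exact (this t).1 ht
  have hC : ∀ n ∈ N, ∀ c ∈ C, n * c * n⁻¹ ∈ C := by
    intro n hn c hc
    rw [hCdef, Subgroup.mem_comap] at hc ⊢
    rw [hNdef, Subgroup.mem_comap] at hn
    rw [map_mul, map_mul, map_inv]
    exact hTN _ hn _ hc
  have hKn : π.ker.Normal := inferInstance
  have hAmax : MaxP p ((P : Subgroup H) ⊓ π.ker) π.ker :=
    MaxP.inf (Sylow.maxP P) le_top (fun n _ c hc => hKn.conj_mem c hc n)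
  have hKC : π.ker ≤ C := by
    intro k hk
    rw [hCdef, Subgroup.mem_comap, MonoidHom.mem_ker.1 hk]
    exact T.one_mem
  have hAQ : (P : Subgroup H) ⊓ π.ker ≤ Q := inf_le_inf_left _ hKC
  have hQp : IsPGroup p Q := P.isPGroup'.to_le inf_le_left
  have hAp : IsPGroup p ((P : Subgroup H) ⊓ π.ker : Subgroup H) := P.isPGroup'.to_le inf_le_left
  set D : Subgroup H := S.comap π ⊓ Subgroup.normalizer (Q : Set H) with hDdef
  have hDS : ∀ d : D, π (d : H) ∈ S := fun d => d.2.1
  let φ : D →* S := (π.comp D.subtype).codRestrict S hDS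
  have hφ : Function.Surjective φ := by
    rintro ⟨s, hs⟩
    obtain ⟨e, he⟩ := hπ s
    obtain ⟨r, hr, hrQ⟩ := exists_normalize p hKn hAmax hAQ hQp e (by
      intro q hq
      rw [MonoidHom.mem_ker, map_mul, map_mul, map_mul, map_inv, map_inv, he]
      have hq2 : π q ∈ T := hq.2
      have := (hST s hs _ hq2).eq
      rw [this]
      group)
    have hm : r⁻¹ * e ∈ D := by
      refine ⟨?_, ?_⟩
      · show π (r⁻¹ * e) ∈ S
        rw [map_mul, map_inv, MonoidHom.mem_ker.1 hr, inv_one, one_mul, he]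
        exact hs
      · show r⁻¹ * e ∈ Subgroup.normalizer (Q : Set H)
        rw [Subgroup.mem_normalizer_iff]
        intro h
        constructor
        · intro hh
          have h1 : (r⁻¹ * e) * h * (r⁻¹ * e)⁻¹ ∈ Q.map (MulAut.conj (r⁻¹ * e)).toMonoidHom :=
            ⟨h, hh, rfl⟩
          rw [hrQ] at h1
          exact h1
        · intro hh
          rw [← hrQ] at hh
          obtain ⟨h', hh', he'⟩ := hh
          have h2 : (r⁻¹ * e) * h' * (r⁻¹ * e)⁻¹ = (r⁻¹ * e) * h * (r⁻¹ * e)⁻¹ := he'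
          have h3 : h' = h := by
            have := mul_right_cancel h2
            exact mul_left_cancel this
          rw [← h3]
          exact hh'
    refine ⟨⟨r⁻¹ * e, hm⟩, ?_⟩
    apply Subtype.ext
    show π (r⁻¹ * e) = s
    rw [map_mul, map_inv, MonoidHom.mem_ker.1 hr, inv_one, one_mul, he]
  have hna' : ∃ a b : S, ¬ Commute a b := by
    obtain ⟨a, ha, b, hb, hab⟩ := hna
    refine ⟨⟨a, ha⟩, ⟨b, hb⟩, ?_⟩
    intro h
    apply hab
    have := congrArg Subtype.val h.eq
    exact this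
  obtain ⟨s0, hs0, hcop, hs1⟩ := exists_coprime_element p hS hna' hp φ hφ
  have hcop' : Nat.Coprime p (orderOf (s0 : H)) := by
    rw [Subgroup.orderOf_coe]
    exact hcop
  have hs2 : (s0 : H) ≠ 1 := by
    intro h
    apply hs1
    have : s0 = 1 := Subtype.ext h
    rw [this, map_one]
  have hs3 : ∃ v, ρ (s0 : H) v ≠ v := by
    by_contra hcon
    push Not at hcon
    apply hs2
    apply hρ
    rw [map_one]
    apply LinearMap.ext
    intro v
    rw [hcon v]
    rfl
  obtain ⟨U, i1, i2, i3, σ, ψ, hψ, hψσ, u, hu, hsu⟩ := exists_quotient p hA hAp ρ hcop' hs3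
  refine ⟨U, i1, i2, i3, σ, ψ, hψ, hψσ, ?_⟩
  by_contra hcon
  push Not at hcon
  have hconj : ∀ x : H, x ∈ D → Q.map (MulAut.conj x).toMonoidHom = Q := by
    intro x hx
    have hx2 : x ∈ Subgroup.normalizer (Q : Set H) := hx.2
    rw [Subgroup.mem_normalizer_iff] at hx2
    ext h
    constructor
    · rintro ⟨h', hh', rfl⟩
      have := (hx2 h').1 hh'
      simpa using this
    · intro hh
      refine ⟨x⁻¹ * h * x, ?_, by simp [mul_assoc]⟩
      have h4 : x * (x⁻¹ * h * x) * x⁻¹ ∈ Q := by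
        have : x * (x⁻¹ * h * x) * x⁻¹ = h := by group
        rw [this]
        exact hh
      exact (hx2 _).2 h4
  have hpel : ∀ x : D, (∃ n : ℕ, x ^ p ^ n = 1) → ∀ v : U, (∀ q ∈ Q, σ q v = v) →
      σ (x : H) v = v := by
    intro x hx v hv
    obtain ⟨n, hn⟩ := hx
    refine pelement_fixes p P hNn hCN hC σ hcon (x := (x : H)) ?_ ⟨n, ?_⟩ (hconj _ x.2) hv
    · rw [hNdef, Subgroup.mem_comap]
      exact Subgroup.mem_sup_left (hDS x)
    · have := congrArg Subtype.val hn
      simpa using this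
  have hall : ∀ v : U, (∀ q ∈ Q, σ q v = v) → σ (s0 : H) v = v := by
    intro v hv
    refine Subgroup.closure_induction (p := fun (x : D) _ => σ (x : H) v = v) ?_ ?_ ?_ ?_ hs0
    · intro x hx
      exact hpel x hx v hv
    · simp
    · intro x y _ _ hx hy
      rw [Subgroup.coe_mul, map_mul, Module.End.mul_apply, hy, hx]
    · intro x _ hx
      have h5 : σ ((x⁻¹ : D) : H) (σ (x : H) v) = v := by
        rw [← Module.End.mul_apply, ← map_mul, Subgroup.coe_inv, inv_mul_cancel, map_one]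
        rfl
      rw [hx] at h5
      exact h5
  refine hsu (thompson p hA hAQ hQp σ hcop' ?_ hall hu)
  intro q hq
  have hsn : (s0 : H) ∈ Subgroup.normalizer (Q : Set H) := s0.2.2
  rw [Subgroup.mem_normalizer_iff] at hsn
  have h6 := (hsn q).1 hq
  refine ⟨?_, ?_⟩
  · exact (P : Subgroup H).mul_mem h6.1 ((P : Subgroup H).inv_mem hq.1)
  · show _ ∈ π.ker
    rw [MonoidHom.mem_ker, map_mul, map_mul, map_mul, map_inv, map_inv]
    have h7 := (hST _ (hDS s0) _ hq.2).eq
    rw [h7]
    group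

end LibKS
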