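import Pool.Agent.LibKSF.F4
import Pool.Agent.LibKSF.F9
import Pool.Agent.LibKSF.F10
import Pool.Agent.LibKSF.F10b

set_option autoImplicit false

namespace LibKS

variable {p : ℕ} {F : GoodClass p}

/-- The family of subgroups needed for the computation. -/
theorem F11_fam [Fact p.Prime] {H B : Type} [Group H] [Finite H] [Group B]
    (π : H →* B) (hπ : Function.Surjective π) (P : Sylow p H) {S : Subgroup B}
    (hS : IsComp F S) :
    letI : MulAction (P : Subgroup H) (Om S) :=
      MulAction.compHom (Om S) (π.comp (P : Subgroup H).subtype)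
    Fam (P := (P : Subgroup H)) (Ω := Om S)
      (((⨆ w : Om S, w.1 : Subgroup B).comap π).subgroupOf (P : Subgroup H))
      (fun w => (w.1.comap π).subgroupOf (P : Subgroup H))
      (fun w => ((co w).comap π).subgroupOf (P : Subgroup H)) := by
  letI : MulAction (P : Subgroup H) (Om S) :=
    MulAction.compHom (Om S) (π.comp (P : Subgroup H).subtype)
  have hsm : ∀ (g : (P : Subgroup H)) (v : Om S), g • v = π (g : H) • v := fun g v => rfl
  have hn : (⨆ w : Om S, w.1 : Subgroup B).Normal := iSup_Om_normal S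
  refine ⟨?_, ?_, ?_, ?_, ?_, ?_, ?_, ?_⟩
  · have := hn.comap π
    infer_instance
  · intro v a ha
    rw [Subgroup.mem_subgroupOf, Subgroup.mem_comap] at ha ⊢
    exact (le_iSup (fun w : Om S => w.1) v) ha
  · intro v a ha
    rw [Subgroup.mem_subgroupOf, Subgroup.mem_comap] at ha ⊢
    rw [← sup_co v]
    exact (le_sup_right : co v ≤ _) ha
  · intro v n hn1
    rw [Subgroup.mem_subgroupOf, Subgroup.mem_comap, ← sup_co v] at hn1
    have hn' : (v.1 ⊔ co v).Normal := by rw [sup_co]; exact hn
    obtain ⟨a, ha, ha', q, hq, hq', e⟩ := exists_mul_of_mem_sup π hπ P v.1 (co v)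
      (co_commute hS v) (co_disjoint hS v) hn' n.2 hn1
    refine ⟨⟨a, ha⟩, ?_, ⟨q, hq⟩, ?_, ?_⟩
    · rw [Subgroup.mem_subgroupOf, Subgroup.mem_comap]; exact ha'
    · rw [Subgroup.mem_subgroupOf, Subgroup.mem_comap]; exact hq'
    · exact Subtype.ext e
  · intro v w hvw a ha
    rw [Subgroup.mem_subgroupOf, Subgroup.mem_comap] at ha ⊢
    exact le_co hvw ha
  · intro g v a ha
    rw [Subgroup.mem_subgroupOf, Subgroup.mem_comap] at ha ⊢
    rw [hsm, Om.smul_coe]
    exact ⟨_, ha, by simp [MulAut.conj_apply]⟩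
  · intro g v a ha
    rw [Subgroup.mem_subgroupOf, Subgroup.mem_comap] at ha ⊢
    rw [hsm]
    have := conj_mem_co (π (g : H)) v ha
    simpa using this
  · intro n hn1 v
    rw [Subgroup.mem_subgroupOf, Subgroup.mem_comap] at hn1
    rw [hsm]
    exact smul_eq_of_mem_iSup hS hn1 v

open Classical in
/-- The Fox derivatives vanish on the permutation module of the conjugates of a component of a
quotient, when the Sylow subgroup of the kernel is normal. -/
theorem fox_van_of_normal [Fact p.Prime] {k : ℕ} {H B : Type} [Group H] [Finite H] [Group B]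
    (π : H →* B) (hπ : Function.Surjective π) (P : Sylow p H)
    (hA : ((P : Subgroup H) ⊓ π.ker).Normal) {S : Subgroup B} (hS : IsComp F S)
    {V : Type} [AddCommGroup V] [Module (ZMod p) V] [Finite V]
    (ρ : H →* Module.End (ZMod p) V) (hρ : Function.Injective ρ) {f : FA p k}
    (hf : VanL (P : Subgroup H) ρ f) (i : Fin k) {g : Fin k → H} (hg : ∀ j, g j ∈ P)
    (v w : Om S) :
    Finsupp.linearCombination (ZMod p)
      (fun s => if π (W g s) • v = w then (1 : ZMod p) else 0) (foxL p i f) = 0 := by
  haveI : Finite B := Finite.of_surjective π hπ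
  have hv := Om.isComp hS v
  have hn' : (v.1 ⊔ co v).Normal := by rw [sup_co]; exact iSup_Om_normal S
  obtain ⟨U, iU1, iU2, iU3, σ, φ, hφ, hφρ, u, hu, n, hn, hnu⟩ :=
    key_lemma p π hπ P hA v.1 (co v) (co_commute hS v) (co_disjoint hS v) hv.simple
      hv.exists_not_commute hv.dvd_card hn' ρ hρ
  letI : MulAction (P : Subgroup H) (Om S) :=
    MulAction.compHom (Om S) (π.comp (P : Subgroup H).subtype)
  have hF := F11_fam π hπ P hS
  have hne : ∃ u : U, (∀ q ∈ ((co v).comap π).subgroupOf (P : Subgroup H),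
      (σ.comp (P : Subgroup H).subtype) q u = u) ∧
      ∃ n ∈ ((⨆ w : Om S, w.1 : Subgroup B).comap π).subgroupOf (P : Subgroup H),
        (σ.comp (P : Subgroup H).subtype) n u ≠ u := by
    refine ⟨u, ?_, ⟨n, hn.1⟩, ?_, hnu⟩
    · intro q hq
      exact hu q ⟨q.2, hq⟩
    · rw [← sup_co v]
      exact hn.2
  have hWc : ∀ (g' : Fin k → (P : Subgroup H)) (s : List (Fin k × Bool)),
      ((W g' s : (P : Subgroup H)) : H) = W (fun j => (g' j : H)) s := fun g' s =>
    (F0_W_map (P : Subgroup H).subtype g' s).symm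
  have hf' : ∀ (g' : Fin k → (P : Subgroup H)) (u : U),
      Finsupp.linearCombination (ZMod p)
        (fun s => (σ.comp (P : Subgroup H).subtype) (W g' s) u) f = 0 := by
    intro g' u
    obtain ⟨v', rfl⟩ := hφ u
    have h1 := hf (fun j => (g' j : H)) (fun j => (g' j).2) v'
    have h2 : (fun s => (σ.comp (P : Subgroup H).subtype) (W g' s) (φ v'))
        = fun s => φ (ρ (W (fun j => (g' j : H)) s) v') := by
      funext s
      rw [hφρ, MonoidHom.comp_apply, Subgroup.subtype_apply, hWc]
    rw [h2]
    have h3 : Finsupp.linearCombination (ZMod p)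
        (fun s => φ (ρ (W (fun j => (g' j : H)) s) v')) f
        = φ (Finsupp.linearCombination (ZMod p)
          (fun s => ρ (W (fun j => (g' j : H)) s) v') f) := by
      rw [Finsupp.linearCombination_apply, Finsupp.linearCombination_apply, map_finsuppSum]
      simp only [map_smul]
    rw [h3, h1, map_zero]
  have hfin := fox_vanish p (P.isPGroup') hF (σ.comp (P : Subgroup H).subtype) v hne f hf' i
    (fun j => ⟨g j, hg j⟩) w
  have h4 : (fun s : List (Fin k × Bool) =>
      if (W (fun j => (⟨g j, hg j⟩ : (P : Subgroup H))) s) • v = w then (1 : ZMod p) else 0)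
      = fun s => if π (W g s) • v = w then (1 : ZMod p) else 0 := by
    funext s
    have : (W (fun j => (⟨g j, hg j⟩ : (P : Subgroup H))) s) • v = π (W g s) • v := by
      change π ((W (fun j => (⟨g j, hg j⟩ : (P : Subgroup H))) s : (P : Subgroup H)) : H) • v = _
      rw [hWc]
    rw [this]
  rw [h4] at hfin
  exact hfin

end LibKS
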