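import Pool.Agent.LibKSF.F0

set_option autoImplicit false

namespace LibKS

variable {p : ℕ}

/-- The permutation module. -/
theorem exists_perm_module [Fact p.Prime] {k : ℕ} {G : Type} [Group G] (P : Subgroup G)
    {Ω : Type} [Finite Ω] [MulAction G Ω] [FaithfulSMul G Ω] {f : FA p k}
    (hf : Van P Ω f) :
    ∃ (V : Type) (_ : AddCommGroup V) (_ : Module (ZMod p) V) (_ : Finite V)
      (ρ : G →* Module.End (ZMod p) V), Function.Injective ρ ∧ VanL P ρ f := by
  classical
  have hfin : Finite (Ω →₀ ZMod p) := Finite.of_equiv (Ω → ZMod p) Finsupp.equivFunOnFinite.symm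
  let ρ : G →* Module.End (ZMod p) (Ω →₀ ZMod p) :=
    { toFun := fun g => Finsupp.lmapDomain (ZMod p) (ZMod p) (fun w : Ω => g • w)
      map_one' := by
        ext w : 2
        simp
      map_mul' := fun g h => by
        ext w : 2
        simp [mul_smul] }
  have hρ : ∀ (g : G) (w : Ω), ρ g (Finsupp.single w 1) = Finsupp.single (g • w) 1 := by
    intro g w
    simp [ρ, Finsupp.lmapDomain_apply, Finsupp.mapDomain_single]
  refine ⟨Ω →₀ ZMod p, inferInstance, inferInstance, hfin, ρ, ?_, ?_⟩
  · intro g h hgh
    apply FaithfulSMul.eq_of_smul_eq_smul (α := Ω)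
    intro w
    have h1 := congrArg (fun t : Module.End (ZMod p) (Ω →₀ ZMod p) => t (Finsupp.single w 1)) hgh
    simp only [hρ] at h1
    exact (Finsupp.single_left_inj one_ne_zero).mp h1
  · intro g hg v
    induction v using Finsupp.induction_linear with
    | zero => simp [Finsupp.linearCombination_apply]
    | add v w hv hw =>
      have : (fun u : List (Fin k × Bool) => ρ (W g u) (v + w)) =
          fun u => ρ (W g u) v + ρ (W g u) w := by
        funext u
        rw [map_add]
      rw [this]
      have h2 : ∀ f : FA p k, Finsupp.linearCombination (ZMod p)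
          (fun u => ρ (W g u) v + ρ (W g u) w) f =
          Finsupp.linearCombination (ZMod p) (fun u => ρ (W g u) v) f +
          Finsupp.linearCombination (ZMod p) (fun u => ρ (W g u) w) f := by
        intro f
        simp only [Finsupp.linearCombination_apply, smul_add, Finsupp.sum_add]
      rw [h2, hv, hw, add_zero]
    | single w c =>
      have e1 : (fun u : List (Fin k × Bool) => ρ (W g u) (Finsupp.single w c)) =
          fun u => c • Finsupp.single (W g u • w) 1 := by
        funext u
        have : Finsupp.single w c = c • Finsupp.single w (1 : ZMod p) := by simp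
        rw [this, map_smul, hρ]
      rw [e1]
      ext x
      have h3 := hf g hg w x
      rw [Finsupp.linearCombination_apply, Finsupp.sum] at h3 ⊢
      rw [Finsupp.finsetSum_apply]
      simp only [Finsupp.smul_apply, Finsupp.single_apply, smul_eq_mul, Finsupp.zero_apply] at h3 ⊢
      have h4 : ∀ u, f u * (c * if W g u • w = x then (1 : ZMod p) else 0) =
          c * (f u * if W g u • w = x then (1 : ZMod p) else 0) := by
        intro u; ring
      simp only [h4]
      rw [← Finset.mul_sum]
      have h5 : (∑ u ∈ f.support, f u * if W g u • w = x then (1 : ZMod p) else 0) = 0 := by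
        convert h3
      rw [h5, mul_zero]

end LibKS
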