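import Pool.Agent.LibKSF.F12a
import Pool.Agent.LibKSF.F12p

set_option autoImplicit false

namespace LibKS

variable {p : ℕ} {F : GoodClass p}

/-- The image of a tuple of elements of the image of `P` lifts. -/
theorem van_descend [Fact p.Prime] {k : ℕ} {G B : Type} [Group G] [Finite G] [Group B]
    (π : G →* B) (hπ : Function.Surjective π) (P : Sylow p G) {S : Subgroup B}
    (hS : IsComp F S) {Ω : Type} [Finite Ω] [MulAction G Ω] [FaithfulSMul G Ω] {f : FA p k}
    (hf : Van (P : Subgroup G) Ω f) (i : Fin k) :
    Van ((P : Subgroup G).map π) (Om S) (foxL p i f) := by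
  classical
  obtain ⟨V, _, _, _, ρ, hρ, hV⟩ := exists_perm_module (P : Subgroup G) hf
  intro g' hg' v w
  choose g hg hgg using hg'
  have h := fox_van_linear π hπ P hS ρ hρ hV i hg v w
  have e : g' = fun j => π (g j) := by
    funext j
    exact (hgg j).symm
  rw [e]
  simp only [F0_W_map]
  convert h using 3

end LibKS
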