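import Pool.Agent.LibKSF.F11

set_option autoImplicit false

namespace LibKS

variable {p : ℕ} {F : GoodClass p}

/-- A conjugate of a Sylow subgroup of a conjugation-invariant subgroup is a Sylow subgroup. -/
theorem F12a_maxP_conj {G : Type} [Group G] {X N : Subgroup G} (hX : MaxP p X N)
    (hN : N.Normal) (g : G) : MaxP p (X.map (MulAut.conj g).toMonoidHom) N := by
  refine ⟨?_, ?_, ?_⟩
  · rintro _ ⟨x, hx, rfl⟩
    exact hN.conj_mem x (hX.le hx) g
  · exact hX.isP.map _
  · intro Y hY hYp hle
    have h1 : Y.map (MulAut.conj g⁻¹).toMonoidHom = X := by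
      apply hX.max
      · rintro _ ⟨y, hy, rfl⟩
        exact hN.conj_mem y (hY hy) g⁻¹
      · exact hYp.map _
      · intro x hx
        refine ⟨g * x * g⁻¹, hle ⟨x, hx, by simp⟩, ?_⟩
        simp
        group
    rw [← h1]
    ext y
    simp only [Subgroup.mem_map, MulEquiv.coe_toMonoidHom, MulAut.conj_apply]
    constructor
    · intro hy
      exact ⟨_, ⟨y, hy, rfl⟩, by group⟩
    · rintro ⟨_, ⟨s, hs, rfl⟩, rfl⟩
      have : g * (g⁻¹ * s * g⁻¹⁻¹) * g⁻¹ = s := by group
      rw [this]
      exact hs

open Classical in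
/-- Reduction to the normaliser of the Sylow subgroup of the kernel. -/
theorem fox_van_linear [Fact p.Prime] {k : ℕ} {G B : Type} [Group G] [Finite G] [Group B]
    (π : G →* B) (hπ : Function.Surjective π) (P : Sylow p G) {S : Subgroup B}
    (hS : IsComp F S) {V : Type} [AddCommGroup V] [Module (ZMod p) V] [Finite V]
    (ρ : G →* Module.End (ZMod p) V) (hρ : Function.Injective ρ) {f : FA p k}
    (hf : VanL (P : Subgroup G) ρ f) (i : Fin k) {g : Fin k → G} (hg : ∀ j, g j ∈ P)
    (v w : Om S) :
    Finsupp.linearCombination (ZMod p)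
      (fun s => if π (W g s) • v = w then (1 : ZMod p) else 0) (foxL p i f) = 0 := by
  set A : Subgroup G := (P : Subgroup G) ⊓ π.ker with hAdef
  set H : Subgroup G := Subgroup.normalizer (A : Set G) with hHdef
  have hK : π.ker.Normal := inferInstance
  have hPH : (P : Subgroup G) ≤ H := by
    intro x hx
    rw [hHdef, Subgroup.mem_normalizer_iff]
    intro a
    constructor
    · intro ha
      exact ⟨P.mul_mem (P.mul_mem hx ha.1) (P.inv_mem hx), hK.conj_mem a ha.2 x⟩
    · intro ha
      have h1 : a = x⁻¹ * (x * a * x⁻¹) * x := by group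
      refine ⟨?_, ?_⟩
      · rw [h1]
        exact P.mul_mem (P.mul_mem (P.inv_mem hx) ha.1) hx
      · rw [h1]
        have := hK.conj_mem _ ha.2 x⁻¹
        simpa using this
  have hAmax : MaxP p A π.ker :=
    MaxP.inf (Sylow.maxP P) le_top (fun n _ c hc => hK.conj_mem c hc n)
  have hsurj : Function.Surjective (π.comp H.subtype) := by
    intro b
    obtain ⟨x, rfl⟩ := hπ b
    obtain ⟨n, hn, hn'⟩ := MaxP.exists_conj hAmax (F12a_maxP_conj hAmax hK x)
    have hmem : n⁻¹ * x ∈ H := by
      rw [hHdef, Subgroup.mem_normalizer_iff_map_conj_eq]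
      have h2 : A.map (MulAut.conj (n⁻¹ * x)).toMonoidHom =
          (A.map (MulAut.conj x).toMonoidHom).map (MulAut.conj n⁻¹).toMonoidHom := by
        ext y
        simp only [Subgroup.mem_map, MulEquiv.coe_toMonoidHom, MulAut.conj_apply]
        constructor
        · rintro ⟨s, hs, rfl⟩
          exact ⟨_, ⟨s, hs, rfl⟩, by group⟩
        · rintro ⟨_, ⟨s, hs, rfl⟩, rfl⟩
          exact ⟨s, hs, by group⟩
      have h3 : A.map (MulAut.conj (n⁻¹ * x)).toMonoidHom = A := by
        rw [h2, ← hn']
        ext y
        simp only [Subgroup.mem_map, MulEquiv.coe_toMonoidHom, MulAut.conj_apply]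
        constructor
        · rintro ⟨_, ⟨s, hs, rfl⟩, rfl⟩
          have : n⁻¹ * (n * s * n⁻¹) * n⁻¹⁻¹ = s := by group
          rw [this]
          exact hs
        · intro hy
          exact ⟨_, ⟨y, hy, rfl⟩, by group⟩
      exact h3
    refine ⟨⟨n⁻¹ * x, hmem⟩, ?_⟩
    have hn1 : π n = 1 := hn
    simp [hn1]
  have hP' : ((P.subtype hPH : Sylow p H) : Subgroup H) = (P : Subgroup G).subgroupOf H :=
    rfl
  have hnorm : (((P.subtype hPH : Sylow p H) : Subgroup H) ⊓ (π.comp H.subtype).ker).Normal := by
    refine ⟨?_⟩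
    intro n hn x
    have hnA : (n : G) ∈ A := ⟨by
      have := hn.1
      rw [hP'] at this
      exact Subgroup.mem_subgroupOf.1 this, by
      have := hn.2
      simpa [MonoidHom.mem_ker] using this⟩
    have hx : (x : G) ∈ Subgroup.normalizer (A : Set G) := x.2
    have h4 := ((Subgroup.mem_normalizer_iff.1 hx) (n : G)).1 hnA
    refine ⟨?_, ?_⟩
    · rw [hP']
      exact Subgroup.mem_subgroupOf.2 h4.1
    · exact h4.2
  have hmem : ∀ j, g j ∈ H := fun j => hPH (hg j)
  have hWc : ∀ s, ((W (fun j => (⟨g j, hmem j⟩ : H)) s : H) : G) = W g s := by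
    intro s
    have := F0_W_map H.subtype (fun j => (⟨g j, hmem j⟩ : H)) s
    exact this.symm
  have key := fox_van_of_normal (p := p) (F := F) (k := k) (π.comp H.subtype) hsurj
    (P.subtype hPH) hnorm hS (ρ.comp H.subtype) (hρ.comp Subtype.coe_injective) (f := f)
    (by
      intro g' hg' v'
      have hg'' : ∀ j, ((g' j : H) : G) ∈ (P : Subgroup G) := by
        intro j
        have := hg' j
        rw [hP'] at this
        exact Subgroup.mem_subgroupOf.1 this
      have := hf (fun j => (g' j : G)) hg'' v'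
      have h5 : (fun u => (ρ.comp H.subtype) (W g' u) v') =
          (fun u => ρ (W (fun j => (g' j : G)) u) v') := by
        funext u
        have := F0_W_map H.subtype g' u
        rw [MonoidHom.comp_apply, ← this]
        rfl
      rw [h5]
      exact this)
    i (g := fun j => (⟨g j, hmem j⟩ : H))
    (by
      intro j
      have : (⟨g j, hmem j⟩ : H) ∈ ((P.subtype hPH : Sylow p H) : Subgroup H) := by
        rw [hP']
        exact Subgroup.mem_subgroupOf.2 (hg j)
      exact this) v w
  have h6 : (fun s => if (π.comp H.subtype) (W (fun j => (⟨g j, hmem j⟩ : H)) s) • v = w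
      then (1 : ZMod p) else 0) = (fun s => if π (W g s) • v = w then (1 : ZMod p) else 0) := by
    funext s
    have : (π.comp H.subtype) (W (fun j => (⟨g j, hmem j⟩ : H)) s) = π (W g s) := by
      rw [MonoidHom.comp_apply]
      congr 1
      exact hWc s
    rw [this]
  rw [h6] at key
  exact key

end LibKS
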