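import Pool.Agent.LibKSF.F13b
import Pool.Agent.LibKSF.F1

set_option autoImplicit false

namespace LibKS

variable {p : ℕ} {F : GoodClass p}

/-- The explicit bound. -/
theorem main_word [Fact p.Prime] {k : ℕ} (u : List (Fin k × Bool)) (hu : u ≠ [])
    (hred : FreeGroup.IsReduced u) (G : Type) [Group G] [Finite G] (hO : OutHyp F G)
    (P : Sylow p G) (hP : ∀ g : Fin k → G, (∀ i, g i ∈ P) → W g u = 1) :
    PL F (u.length - 1) G := by
  classical
  by_contra hn
  obtain ⟨I, hI, hlen, hne⟩ := exists_mag_ne_zero p u hu hred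
  have hl : 1 ≤ u.length := List.length_pos_iff.mpr hu
  have hvan : Van (P : Subgroup G) G (Finsupp.single u (1 : ZMod p) - Finsupp.single [] 1) := by
    intro g hg v w
    rw [map_sub, Finsupp.linearCombination_single, Finsupp.linearCombination_single, hP g hg]
    simp [W]
  have h := mag_eq_zero (F := F) (u.length - 1) G hO hn P G _ hvan I (by omega)
  obtain ⟨i, I', rfl⟩ := List.exists_cons_of_ne_nil hI
  rw [map_sub, mag_cons_nil, sub_zero] at h
  exact hne h

end LibKS
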