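import Pool.Agent.LibKSF.F0

set_option autoImplicit false

namespace LibKS

variable {p : ℕ}

/-- The vanishing property passes to the quotient by the kernel of the action. -/
theorem Van.quotient_ker [Fact p.Prime] {k : ℕ} {B : Type} [Group B] {Q : Subgroup B}
    {Ω : Type} [MulAction B Ω] {f : FA p k} (hf : Van Q Ω f) :
    ∃ _ : MulAction (B ⧸ (MulAction.toPermHom B Ω).ker) Ω,
      FaithfulSMul (B ⧸ (MulAction.toPermHom B Ω).ker) Ω ∧
      Van (Q.map (QuotientGroup.mk' (MulAction.toPermHom B Ω).ker)) Ω f := by
  classical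
  let φ : (B ⧸ (MulAction.toPermHom B Ω).ker) →* Equiv.Perm Ω :=
    QuotientGroup.kerLift (MulAction.toPermHom B Ω)
  have hφ : Function.Injective φ := QuotientGroup.kerLift_injective _
  let inst : MulAction (B ⧸ (MulAction.toPermHom B Ω).ker) Ω := MulAction.compHom Ω φ
  have hsm : ∀ (b : B) (w : Ω),
      (QuotientGroup.mk' (MulAction.toPermHom B Ω).ker b) • w = b • w := fun b w => rfl
  refine ⟨inst, ⟨?_⟩, ?_⟩
  · intro a b hab
    apply hφ
    ext w
    exact hab w
  · intro g' hg' v w
    choose g hg hgg using hg'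
    have e : g' = fun j => QuotientGroup.mk' (MulAction.toPermHom B Ω).ker (g j) := by
      funext j
      exact (hgg j).symm
    rw [e]
    simp only [F0_W_map, hsm]
    have h := hf g hg v w
    convert h using 3

end LibKS
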