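import Pool.Agent.LibKSF.F12
import Pool.Agent.LibKSF.F13a
import Pool.Agent.LibKS.A12b

set_option autoImplicit false

namespace LibKS

variable {p : ℕ} {F : GoodClass p}

/-- The augmentation vanishes. -/
theorem mag_nil_eq_zero [Fact p.Prime] {k : ℕ} {G : Type} [Group G] (P : Subgroup G)
    {Ω : Type} [Nonempty Ω] [MulAction G Ω] {f : FA p k} (hf : Van P Ω f) :
    mag p [] f = 0 := by
  classical
  obtain ⟨v⟩ := ‹Nonempty Ω›
  have h := hf (fun _ => 1) (fun _ => P.one_mem) v v
  have : (fun u : List (Fin k × Bool) =>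
      if W (fun _ => (1 : G)) u • v = v then (1 : ZMod p) else 0) = fun _ => 1 := by
    funext u
    rw [F0_W_one]
    simp
  have h2 : mag p [] f = Finsupp.linearCombination (ZMod p)
      (fun _ : List (Fin k × Bool) => (1 : ZMod p)) f := rfl
  rw [h2, ← this]
  convert h using 3

instance Om.finite {H : Type} [Group H] [Finite H] (S : Subgroup H) : Finite (Om S) :=
  inferInstanceAs (Finite {T : Subgroup H // ∃ g : H, S.map (MulAut.conj g).toMonoidHom = T})

instance Om.nonempty {H : Type} [Group H] (S : Subgroup H) : Nonempty (Om S) :=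
  ⟨⟨S.map (MulAut.conj (1 : H)).toMonoidHom, 1, rfl⟩⟩

theorem mag_eq_zero [Fact p.Prime] {k : ℕ} (n : ℕ) : ∀ (G : Type) [Group G] [Finite G]
    (_ : OutHyp F G) (_ : ¬ PL F n G) (P : Sylow p G) (Ω : Type) [Finite Ω] [Nonempty Ω]
    [MulAction G Ω] [FaithfulSMul G Ω] (f : FA p k) (_ : Van (P : Subgroup G) Ω f)
    (I : List (Fin k)) (_ : I.length ≤ n + 1), mag p I f = 0 := by
  induction n with
  | zero =>
    intro G _ _ hO hPL P Ω _ _ _ _ f hf I hI
    rcases I with _ | ⟨i, I⟩
    · exact mag_nil_eq_zero (P : Subgroup G) hf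
    · have hI' : I = [] := by
        simp only [List.length_cons, zero_add] at hI
        exact List.length_eq_zero_iff.mp (by omega)
      subst hI'
      have hH := rad_eq_bot_of_ker F (QuotientGroup.mk' (rad F G))
        (QuotientGroup.mk'_surjective _) (QuotientGroup.ker_mk' _)
      have hne : (⊤ : Subgroup (G ⧸ rad F G)) ≠ ⊥ := by
        intro h
        apply hPL
        have h1 : Subsingleton (G ⧸ rad F G) := by
          refine ⟨fun a b => ?_⟩
          have ha : a ∈ (⊥ : Subgroup (G ⧸ rad F G)) := h ▸ Subgroup.mem_top a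
          have hb : b ∈ (⊥ : Subgroup (G ⧸ rad F G)) := h ▸ Subgroup.mem_top b
          rw [Subgroup.mem_bot] at ha hb
          rw [ha, hb]
        exact F.of_ext (rad F G) (rad_mem F G) (F.of_subsingleton)
      obtain ⟨S, hS, _⟩ := exists_comp_le F hH (N := ⊤) inferInstance hne
      have h2 := van_descend (QuotientGroup.mk' (rad F G)) (QuotientGroup.mk'_surjective _) P hS
        hf i
      exact mag_nil_eq_zero _ h2
  | succ n ih =>
    intro G _ _ hO hPL P Ω _ _ _ _ f hf I hI
    rcases I with _ | ⟨i, I⟩
    · exact mag_nil_eq_zero (P : Subgroup G) hf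
    · obtain ⟨H, _, π, hπ, _, S, hS, hnPL⟩ := exists_comp_of_not_PL hO hPL
      have hfin : Finite H := Finite.of_surjective π hπ
      have h2 := van_descend π hπ P hS hf i
      obtain ⟨inst, hfaith, h3⟩ := Van.quotient_ker h2
      have hO' : OutHyp F (H ⧸ (MulAction.toPermHom H (Om S)).ker) :=
        (hO.of_surjective π hπ).of_surjective (QuotientGroup.mk' _)
          (QuotientGroup.mk'_surjective _)
      have h4 : (((P.mapSurjective hπ).mapSurjective
          (QuotientGroup.mk'_surjective (MulAction.toPermHom H (Om S)).ker) :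
            Sylow p (H ⧸ (MulAction.toPermHom H (Om S)).ker)) :
          Subgroup (H ⧸ (MulAction.toPermHom H (Om S)).ker)) =
          ((P : Subgroup G).map π).map
            (QuotientGroup.mk' (MulAction.toPermHom H (Om S)).ker) := by
        rw [Sylow.coe_mapSurjective, Sylow.coe_mapSurjective]
      rw [← h4] at h3
      have := ih (H ⧸ (MulAction.toPermHom H (Om S)).ker) hO' hnPL _ (Om S) (foxL p i f) h3 I
        (by simpa using hI)
      exact this

end LibKS
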