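import Pool.Agent.LibKSF.F13

set_option autoImplicit false

namespace LibKS

/-- The space spanned by the elements `g - 1` in the group algebra of the free group: the
augmentation ideal. -/
noncomputable def augI (p k : ℕ) :
    Submodule (ZMod p) (MonoidAlgebra (ZMod p) (FreeGroup (Fin k))) :=
  Submodule.span (ZMod p) (Set.range fun g : FreeGroup (Fin k) =>
    MonoidAlgebra.of (ZMod p) (FreeGroup (Fin k)) g - 1)

/-- Evaluation of a formal combination of words in the group algebra of the free group. -/
noncomputable def evF (p k : ℕ) :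
    FA p k →ₗ[ZMod p] MonoidAlgebra (ZMod p) (FreeGroup (Fin k)) :=
  Finsupp.linearCombination (ZMod p)
    (fun u => MonoidAlgebra.of (ZMod p) (FreeGroup (Fin k)) (FreeGroup.mk u))

theorem evF_single (p k : ℕ) (u : List (Fin k × Bool)) (c : ZMod p) :
    evF p k (Finsupp.single u c) =
      c • MonoidAlgebra.of (ZMod p) (FreeGroup (Fin k)) (FreeGroup.mk u) := by
  simp only [evF, Finsupp.linearCombination_single]

theorem F14_mk_cons_true {k : ℕ} (j : Fin k) (u : List (Fin k × Bool)) :
    FreeGroup.mk ((j, true) :: u) = FreeGroup.of j * FreeGroup.mk u := by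
  rw [FreeGroup.of, FreeGroup.mul_mk]; rfl

theorem F14_mk_cons_false {k : ℕ} (j : Fin k) (u : List (Fin k × Bool)) :
    FreeGroup.mk ((j, false) :: u) = (FreeGroup.of j)⁻¹ * FreeGroup.mk u := by
  rw [FreeGroup.of, FreeGroup.inv_mk, FreeGroup.mul_mk]; rfl

theorem F14_word (p : ℕ) {k : ℕ} (u : List (Fin k × Bool)) :
    MonoidAlgebra.of (ZMod p) (FreeGroup (Fin k)) (FreeGroup.mk u) = 1 +
      ∑ i : Fin k, (MonoidAlgebra.of (ZMod p) (FreeGroup (Fin k)) (FreeGroup.of i) - 1) *
        evF p k (fox p i u) := by
  induction u with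
  | nil =>
    simp [fox, ← FreeGroup.one_eq_mk, MonoidAlgebra.one_def]
  | cons l u ih =>
    obtain ⟨j, b⟩ := l
    cases b
    · have h1 : ∀ i : Fin k, evF p k (fox p i ((j, false) :: u)) =
          (if j = i then - MonoidAlgebra.of (ZMod p) (FreeGroup (Fin k))
            (FreeGroup.mk ((j, false) :: u)) else 0) + evF p k (fox p i u) := by
        intro i
        by_cases h : j = i
        · simp only [fox, h, if_true, Bool.false_eq_true, if_false, map_add, map_neg,
            evF_single, one_smul]
        · simp only [fox, h, if_false, zero_add]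
      simp only [h1, mul_add, Finset.sum_add_distrib, mul_ite, mul_zero,
        Finset.sum_ite_eq, Finset.mem_univ, if_true]
      have h2 := ih
      rw [← sub_eq_iff_eq_add'] at h2
      rw [← h2, F14_mk_cons_false, map_mul]
      have h3 : MonoidAlgebra.of (ZMod p) (FreeGroup (Fin k)) (FreeGroup.of j) *
          MonoidAlgebra.of (ZMod p) (FreeGroup (Fin k)) (FreeGroup.of j)⁻¹ = 1 := by
        rw [← map_mul, mul_inv_cancel, map_one]
      rw [mul_neg, sub_mul, one_mul, ← mul_assoc, h3, one_mul]
      abel
    · have h1 : ∀ i : Fin k, evF p k (fox p i ((j, true) :: u)) =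
          (if j = i then MonoidAlgebra.of (ZMod p) (FreeGroup (Fin k))
            (FreeGroup.mk u) else 0) + evF p k (fox p i u) := by
        intro i
        by_cases h : j = i
        · simp only [fox, h, if_true, map_add, evF_single, one_smul]
        · simp only [fox, h, if_false, zero_add]
      simp only [h1, mul_add, Finset.sum_add_distrib, mul_ite, mul_zero,
        Finset.sum_ite_eq, Finset.mem_univ, if_true]
      have h2 := ih
      rw [← sub_eq_iff_eq_add'] at h2
      rw [← h2, F14_mk_cons_true, map_mul, sub_mul, one_mul]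
      abel

/-- The fundamental formula of the Fox calculus. -/
theorem fundamental (p : ℕ) {k : ℕ} (f : FA p k) :
    evF p k f = mag p [] f • (1 : MonoidAlgebra (ZMod p) (FreeGroup (Fin k))) +
      ∑ i : Fin k, (MonoidAlgebra.of (ZMod p) (FreeGroup (Fin k)) (FreeGroup.of i) - 1) *
        evF p k (foxL p i f) := by
  induction f using Finsupp.induction_linear with
  | zero => simp
  | add f g hf hg =>
    simp only [map_add, mul_add, Finset.sum_add_distrib, add_smul]
    rw [hf, hg]
    abel
  | single u c =>
    simp only [foxL_single, mag_nil_single, evF_single, map_smul, mul_smul_comm]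
    rw [F14_word, ← Finset.smul_sum, smul_add]

theorem mem_augI_pow (p : ℕ) {k : ℕ} (r : ℕ) : ∀ (f : FA p k)
    (_ : ∀ I : List (Fin k), I.length ≤ r → mag p I f = 0), evF p k f ∈ augI p k ^ (r + 1) := by
  induction r with
  | zero =>
    intro f h
    rw [zero_add, pow_one]
    have h0 : mag p [] f = 0 := h [] (by simp)
    have h1 : evF p k f = evF p k f - mag p [] f •
        (1 : MonoidAlgebra (ZMod p) (FreeGroup (Fin k))) := by
      rw [h0, zero_smul, sub_zero]
    rw [h1]
    clear h1 h0 h
    induction f using Finsupp.induction_linear with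
    | zero => simp
    | add f g hf hg =>
      have : evF p k (f + g) - mag p [] (f + g) •
          (1 : MonoidAlgebra (ZMod p) (FreeGroup (Fin k))) =
          (evF p k f - mag p [] f • 1) + (evF p k g - mag p [] g • 1) := by
        rw [map_add, map_add, add_smul]
        abel
      rw [this]
      exact Submodule.add_mem _ hf hg
    | single u c =>
      rw [evF_single, mag_nil_single, ← smul_sub]
      exact Submodule.smul_mem _ _ (Submodule.subset_span ⟨_, rfl⟩)
  | succ r ih =>
    intro f h
    rw [fundamental, h [] (by simp), zero_smul, zero_add, pow_succ']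
    refine Submodule.sum_mem _ fun i _ => ?_
    refine Submodule.mul_mem_mul (Submodule.subset_span ⟨_, rfl⟩) ?_
    apply ih
    intro I hI
    exact h (i :: I) (by simpa using hI)

/-- The bound in terms of the depth of the word. -/
theorem main_depth {p : ℕ} [Fact p.Prime] (F : GoodClass p) {k : ℕ} (w : FreeGroup (Fin k))
    (hw : w ≠ 1) (N : ℕ) (hN : w.toWord.length ≤ N + 1 ∨
      MonoidAlgebra.of (ZMod p) (FreeGroup (Fin k)) w - 1 ∉ augI p k ^ (N + 2))
    (G : Type) [Group G] [Finite G] (hO : OutHyp F G)
    (hP : ∀ (P : Sylow p G) (f : Fin k → ↥(P : Subgroup G)), FreeGroup.lift f w = 1) :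
    PL F N G := by
  classical
  obtain ⟨P⟩ : Nonempty (Sylow p G) := inferInstance
  have hu : w.toWord ≠ [] := by
    intro h
    exact hw (FreeGroup.toWord_eq_nil_iff.mp h)
  have hlaw : ∀ g : Fin k → G, (∀ i, g i ∈ P) → W g w.toWord = 1 := by
    intro g hg
    have h1 := hP P (fun i => ⟨g i, hg i⟩)
    have h2 := F0_W_lift g w.toWord
    rw [FreeGroup.mk_toWord] at h2
    have h3 : FreeGroup.lift g w =
        ((FreeGroup.lift (fun i => (⟨g i, hg i⟩ : (P : Subgroup G))) w :
        (P : Subgroup G)) : G) := by
      have : FreeGroup.lift g = ((P : Subgroup G).subtype).comp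
          (FreeGroup.lift (fun i => (⟨g i, hg i⟩ : (P : Subgroup G)))) := by
        ext i
        simp
      rw [this]
      rfl
    rw [h2, h3, h1]
    rfl
  by_contra hn
  have hvan : Van (P : Subgroup G) G
      (Finsupp.single w.toWord (1 : ZMod p) - Finsupp.single [] 1) := by
    intro g hg v x
    rw [map_sub, Finsupp.linearCombination_single, Finsupp.linearCombination_single, hlaw g hg]
    simp [W]
  have h := mag_eq_zero (F := F) N G hO hn P G _ hvan
  rcases hN with hN | hN
  · obtain ⟨I, hI, hlen, hne⟩ := exists_mag_ne_zero p w.toWord hu FreeGroup.isReduced_toWord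
    have h' := h I (by omega)
    obtain ⟨i, I', rfl⟩ := List.exists_cons_of_ne_nil hI
    rw [map_sub, mag_cons_nil, sub_zero] at h'
    exact hne h'
  · apply hN
    have h' := mem_augI_pow p (N + 1) _ h
    rw [map_sub, evF_single, evF_single, FreeGroup.mk_toWord, ← FreeGroup.one_eq_mk, map_one,
      one_smul, one_smul] at h'
    exact h'

end LibKS
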