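import Mathlib

set_option autoImplicit false

namespace LibKS

/-- A finite `p`-group acting on a module has a vector outside of `W₀`, in `W₁`, which is fixed
modulo `W₀`. -/
theorem exists_fixed_mod (p : ℕ) [Fact p.Prime] {H : Type} [Group H] [Finite H]
    (hH : IsPGroup p H) {U : Type} [AddCommGroup U] [Module (ZMod p) U] [Finite U]
    (ρ : H →* Module.End (ZMod p) U) (W₀ W₁ : Submodule (ZMod p) U)
    (h₀ : ∀ h : H, ∀ u ∈ W₀, ρ h u ∈ W₀) (h₁ : ∀ h : H, ∀ u ∈ W₁, ρ h u ∈ W₁)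
    (hne : ¬ W₁ ≤ W₀) : ∃ v ∈ W₁, v ∉ W₀ ∧ ∀ h : H, ρ h v - v ∈ W₀ := by
  obtain ⟨w, hw1, hw0⟩ := Set.not_subset.1 hne
  set K : Submodule (ZMod p) W₁ := W₀.comap W₁.subtype with hK
  have hmap : ∀ h : H, K ≤ K.comap ((ρ h).restrict (h₁ h)) := by
    intro h u hu
    exact h₀ h _ hu
  let act : MulAction H (W₁ ⧸ K) :=
    { smul := fun h x => K.mapQ K ((ρ h).restrict (h₁ h)) (hmap h) x
      one_smul := by
        intro x
        obtain ⟨u, rfl⟩ := Submodule.Quotient.mk_surjective K x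
        change K.mapQ K ((ρ 1).restrict (h₁ 1)) (hmap 1) (Submodule.Quotient.mk u) = _
        rw [Submodule.mapQ_apply]
        congr 1
        apply Subtype.ext
        simp
      mul_smul := by
        intro a b x
        obtain ⟨u, rfl⟩ := Submodule.Quotient.mk_surjective K x
        change K.mapQ K ((ρ (a * b)).restrict (h₁ (a * b))) (hmap (a * b))
          (Submodule.Quotient.mk u) = K.mapQ K ((ρ a).restrict (h₁ a)) (hmap a)
            (K.mapQ K ((ρ b).restrict (h₁ b)) (hmap b) (Submodule.Quotient.mk u))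
        rw [Submodule.mapQ_apply, Submodule.mapQ_apply, Submodule.mapQ_apply]
        congr 1
        apply Subtype.ext
        simp }
  have hsm : ∀ (h : H) (u : W₁), h • (Submodule.Quotient.mk u : W₁ ⧸ K) =
      Submodule.Quotient.mk ((ρ h).restrict (h₁ h) u) := fun h u => rfl
  have hx : (Submodule.Quotient.mk (⟨w, hw1⟩ : W₁) : W₁ ⧸ K) ≠ 0 := by
    intro h
    rw [Submodule.Quotient.mk_eq_zero] at h
    exact hw0 h
  have hdvd : p ∣ Nat.card (W₁ ⧸ K) := by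
    have h1 : addOrderOf (Submodule.Quotient.mk (⟨w, hw1⟩ : W₁) : W₁ ⧸ K) = p :=
      addOrderOf_eq_prime (ZModModule.char_nsmul_eq_zero p _) hx
    have h2 := addOrderOf_dvd_natCard (Submodule.Quotient.mk (⟨w, hw1⟩ : W₁) : W₁ ⧸ K)
    rwa [h1] at h2
  have hfix0 : (0 : W₁ ⧸ K) ∈ MulAction.fixedPoints H (W₁ ⧸ K) := by
    intro h
    have h1 := hsm h 0
    rw [Submodule.Quotient.mk_zero, map_zero, Submodule.Quotient.mk_zero] at h1
    exact h1
  have hfin : Finite (W₁ ⧸ K) := Finite.of_surjective _ (Submodule.Quotient.mk_surjective K)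
  obtain ⟨b, hb, hb0⟩ := hH.exists_fixed_point_of_prime_dvd_card_of_fixed_point
    (W₁ ⧸ K) hdvd hfix0
  obtain ⟨v, rfl⟩ := Submodule.Quotient.mk_surjective K b
  refine ⟨v, v.2, ?_, ?_⟩
  · intro hv
    apply hb0
    symm
    rw [Submodule.Quotient.mk_eq_zero]
    exact hv
  · intro h
    have h1 := hb h
    rw [hsm, Submodule.Quotient.eq] at h1
    exact h1

/-- The same for a subgroup of the acting group. -/
theorem exists_fixed_mod_subgroup (p : ℕ) [Fact p.Prime] {H : Type} [Group H] [Finite H]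
    {Q : Subgroup H} (hQ : IsPGroup p Q) {U : Type} [AddCommGroup U] [Module (ZMod p) U]
    [Finite U] (ρ : H →* Module.End (ZMod p) U) (W₀ W₁ : Submodule (ZMod p) U)
    (h₀ : ∀ h ∈ Q, ∀ u ∈ W₀, ρ h u ∈ W₀) (h₁ : ∀ h ∈ Q, ∀ u ∈ W₁, ρ h u ∈ W₁)
    (hne : ¬ W₁ ≤ W₀) : ∃ v ∈ W₁, v ∉ W₀ ∧ ∀ h ∈ Q, ρ h v - v ∈ W₀ := by
  obtain ⟨v, h1, h2, h3⟩ := exists_fixed_mod p hQ (ρ.comp Q.subtype) W₀ W₁
    (fun h u hu => h₀ h h.2 u hu) (fun h u hu => h₁ h h.2 u hu) hne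
  exact ⟨v, h1, h2, fun h hh => h3 ⟨h, hh⟩⟩

end LibKS
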