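import Pool.Agent.LibKSF.F0
import Pool.Agent.LibKSF.F2

set_option autoImplicit false

namespace LibKS

/-- The hypotheses on the family of subgroups `A v`, `Q v` of the normal subgroup `N` of a
`p`-group `P` acting on `Ω`. -/
structure Fam {P : Type} [Group P] {Ω : Type} [MulAction P Ω] (N : Subgroup P)
    (A Q : Ω → Subgroup P) : Prop where
  normal : N.Normal
  Ale : ∀ v, A v ≤ N
  Qle : ∀ v, Q v ≤ N
  mul : ∀ v, ∀ n ∈ N, ∃ a ∈ A v, ∃ q ∈ Q v, n = a * q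
  AQ : ∀ v w, v ≠ w → A v ≤ Q w
  Aconj : ∀ (g : P) (v : Ω), ∀ a ∈ A v, g * a * g⁻¹ ∈ A (g • v)
  Qconj : ∀ (g : P) (v : Ω), ∀ a ∈ Q v, g * a * g⁻¹ ∈ Q (g • v)
  triv : ∀ n ∈ N, ∀ v : Ω, n • v = v

/-- fixed vectors of a set of elements -/
private def F3_fix {p : ℕ} {P : Type} [Group P] {U : Type} [AddCommGroup U] [Module (ZMod p) U]
    (ρ : P →* Module.End (ZMod p) U) (S : Set P) : Submodule (ZMod p) U where
  carrier := {u | ∀ s ∈ S, ρ s u = u}
  zero_mem' := fun s _ => map_zero _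
  add_mem' := by
    intro a b ha hb s hs
    rw [map_add, ha s hs, hb s hs]
  smul_mem' := by
    intro c a ha s hs
    rw [map_smul, ha s hs]

private theorem F3_mem_fix {p : ℕ} {P : Type} [Group P] {U : Type} [AddCommGroup U]
    [Module (ZMod p) U] (ρ : P →* Module.End (ZMod p) U) (S : Set P) (u : U) :
    u ∈ F3_fix ρ S ↔ ∀ s ∈ S, ρ s u = u := Iff.rfl

private theorem F3_fix_stable {p : ℕ} {P : Type} [Group P] {U : Type} [AddCommGroup U]
    [Module (ZMod p) U] (ρ : P →* Module.End (ZMod p) U) (S : Set P) (g : P)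
    (hg : ∀ s ∈ S, g⁻¹ * s * g ∈ S) (u : U) (hu : u ∈ F3_fix ρ S) : ρ g u ∈ F3_fix ρ S := by
  intro s hs
  have h1 := hu _ (hg s hs)
  have h2 : s * g = g * (g⁻¹ * s * g) := by group
  rw [← Module.End.mul_apply, ← map_mul, h2, map_mul, Module.End.mul_apply, h1]

/-- The data used in the computation. -/
theorem exists_data (p : ℕ) [Fact p.Prime] {P : Type} [Group P] [Finite P] (hP : IsPGroup p P)
    {Ω : Type} [MulAction P Ω] {N : Subgroup P} {A Q : Ω → Subgroup P} (hF : Fam N A Q)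
    {U : Type} [AddCommGroup U] [Module (ZMod p) U] [Finite U]
    (ρ : P →* Module.End (ZMod p) U) (v₀ : Ω)
    (hne : ∃ u : U, (∀ q ∈ Q v₀, ρ q u = u) ∧ ∃ n ∈ N, ρ n u ≠ u) :
    ∃ (u e : U) (Z : Submodule (ZMod p) U) (lam : P → ZMod p),
      (∀ g : P, ∀ z ∈ Z, ρ g z ∈ Z) ∧ e ∉ Z ∧ (∀ g : P, ρ g e - e ∈ Z) ∧
      (∀ n ∈ N, ρ n u - u - lam n • e ∈ Z) ∧
      (∀ n ∈ N, ∀ m ∈ N, lam (n * m) = lam n + lam m) ∧
      (∀ q ∈ Q v₀, lam q = 0) ∧
      (∀ h : P, h • v₀ = v₀ → ∀ n ∈ N, lam (h⁻¹ * n * h) = lam n) ∧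
      (∃ a ∈ A v₀, lam a ≠ 0) := by
  classical
  have hNn := hF.normal
  have hmulapp : ∀ (g h : P) (x : U), ρ (g * h) x = ρ g (ρ h x) := fun g h x => by
    rw [map_mul, Module.End.mul_apply]
  set W0 : Submodule (ZMod p) U := F3_fix ρ (N : Set P) with hW0
  set W1 : Submodule (ZMod p) U := F3_fix ρ (Q v₀ : Set P) with hW1
  have hW0s : ∀ g : P, ∀ u ∈ W0, ρ g u ∈ W0 := fun g u hu =>
    F3_fix_stable ρ _ g (fun s hs => hNn.conj_mem' s hs g) u hu
  have hW1s : ∀ h ∈ MulAction.stabilizer P v₀, ∀ u ∈ W1, ρ h u ∈ W1 := by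
    intro h hh u hu
    refine F3_fix_stable ρ _ h (fun s hs => ?_) u hu
    have h1 := hF.Qconj h⁻¹ v₀ s hs
    have h2 : h⁻¹ • v₀ = v₀ := by
      rw [inv_smul_eq_iff]
      exact (MulAction.mem_stabilizer_iff.1 hh).symm
    rwa [h2, inv_inv] at h1
  have hne1 : ¬ W1 ≤ W0 := by
    obtain ⟨u, hu, n, hn, hnu⟩ := hne
    intro hle
    exact hnu (hle hu n hn)
  obtain ⟨u, huW1, huW0, hust⟩ := exists_fixed_mod_subgroup p
    (hP.to_subgroup (MulAction.stabilizer P v₀)) ρ W0 W1 (fun h _ => hW0s h) hW1s hne1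
  have hNst : ∀ n ∈ N, n ∈ MulAction.stabilizer P v₀ := fun n hn =>
    MulAction.mem_stabilizer_iff.2 (hF.triv n hn v₀)
  have hθW0 : ∀ n ∈ N, ρ n u - u ∈ W0 := fun n hn => hust n (hNst n hn)
  have hθmul : ∀ n ∈ N, ∀ m ∈ N, ρ (n * m) u - u = (ρ n u - u) + (ρ m u - u) := by
    intro n hn m hm
    have h1 := hθW0 m hm n hn
    rw [map_sub] at h1
    rw [hmulapp]
    have h2 : ρ n (ρ m u) = ρ m u - u + ρ n u := by
      rw [← h1]; abel
    rw [h2]
    abel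
  -- the maximal submodule
  have hfinsub : Finite (Submodule (ZMod p) U) :=
    Finite.of_injective (fun M : Submodule (ZMod p) U => (M : Set U)) SetLike.coe_injective
  set T : Set (Submodule (ZMod p) U) :=
    {M | M ≤ W0 ∧ (∀ g : P, ∀ z ∈ M, ρ g z ∈ M) ∧ ∃ n ∈ N, ρ n u - u ∉ M} with hT
  have hTne : T.Nonempty := by
    refine ⟨⊥, bot_le, ?_, ?_⟩
    · intro g z hz
      rw [Submodule.mem_bot] at hz ⊢
      rw [hz, map_zero]
    · by_contra hcon
      push Not at hcon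
      apply huW0
      intro n hn
      have := hcon n hn
      rw [Submodule.mem_bot] at this
      exact sub_eq_zero.1 this
  obtain ⟨Z, hZT, hZmax⟩ := (Set.toFinite T).exists_maximal hTne
  obtain ⟨hZW0, hZs, n₀, hn₀, hn₀Z⟩ := hZT
  obtain ⟨e, heW0, heZ, hest⟩ := exists_fixed_mod p hP ρ Z W0 hZs hW0s
    (fun hle => hn₀Z (hle (hθW0 n₀ hn₀)))
  set Z' : Submodule (ZMod p) U := Z ⊔ Submodule.span (ZMod p) {e} with hZ'
  have heZ' : e ∈ Z' := Submodule.mem_sup_right (Submodule.mem_span_singleton_self e)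
  have hmemZ' : ∀ x, x ∈ Z' ↔ ∃ c : ZMod p, x - c • e ∈ Z := by
    intro x
    rw [hZ', Submodule.mem_sup]
    constructor
    · rintro ⟨z, hz, y, hy, rfl⟩
      obtain ⟨c, rfl⟩ := Submodule.mem_span_singleton.1 hy
      exact ⟨c, by rwa [add_sub_cancel_right]⟩
    · rintro ⟨c, hc⟩
      exact ⟨x - c • e, hc, c • e, Submodule.mem_span_singleton.2 ⟨c, rfl⟩, by abel⟩
  have hZ's : ∀ g : P, ∀ z ∈ Z', ρ g z ∈ Z' := by
    intro g z hz
    obtain ⟨c, hc⟩ := (hmemZ' z).1 hz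
    refine (hmemZ' _).2 ⟨c, ?_⟩
    have h1 := hZs g _ hc
    rw [map_sub, map_smul] at h1
    have h2 := Z.smul_mem c (hest g)
    have h3 := Z.add_mem h1 h2
    rwa [smul_sub, sub_add_sub_cancel] at h3
  have hall : ∀ n ∈ N, ρ n u - u ∈ Z' := by
    by_contra hcon
    push Not at hcon
    have hZ'T : Z' ∈ T := by
      refine ⟨sup_le hZW0 ?_, hZ's, hcon⟩
      rw [Submodule.span_singleton_le_iff_mem]
      exact heW0
    exact heZ (hZmax hZ'T le_sup_left heZ')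
  have hex : ∀ n, ∃ c : ZMod p, n ∈ N → ρ n u - u - c • e ∈ Z := by
    intro n
    by_cases hn : n ∈ N
    · obtain ⟨c, hc⟩ := (hmemZ' _).1 (hall n hn)
      exact ⟨c, fun _ => hc⟩
    · exact ⟨0, fun h => absurd h hn⟩
  choose lam hlam using hex
  have huniq : ∀ (x : U) (c c' : ZMod p), x - c • e ∈ Z → x - c' • e ∈ Z → c = c' := by
    intro x c c' h1 h2
    by_contra hcc
    apply heZ
    have h3 := Z.sub_mem h2 h1
    have h4 : x - c' • e - (x - c • e) = (c - c') • e := by rw [sub_smul]; abel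
    rw [h4] at h3
    have h5 := Z.smul_mem (c - c')⁻¹ h3
    rwa [smul_smul, inv_mul_cancel₀ (sub_ne_zero.2 hcc), one_smul] at h5
  have hadd : ∀ n ∈ N, ∀ m ∈ N, lam (n * m) = lam n + lam m := by
    intro n hn m hm
    refine huniq (ρ (n * m) u - u) _ _ (hlam _ (N.mul_mem hn hm)) ?_
    rw [hθmul n hn m hm]
    have := Z.add_mem (hlam n hn) (hlam m hm)
    have h4 : ρ n u - u + (ρ m u - u) - (lam n + lam m) • e =
        (ρ n u - u - lam n • e) + (ρ m u - u - lam m • e) := by rw [add_smul]; abel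
    rwa [h4]
  have hQ0 : ∀ q ∈ Q v₀, lam q = 0 := by
    intro q hq
    refine huniq (ρ q u - u) _ _ (hlam _ (hF.Qle v₀ hq)) ?_
    rw [huW1 q hq, sub_self, zero_smul, sub_zero]
    exact Z.zero_mem
  refine ⟨u, e, Z, lam, hZs, heZ, hest, fun n hn => hlam n hn, hadd, hQ0, ?_, ?_⟩
  · intro h hh n hn
    have hhst : h ∈ MulAction.stabilizer P v₀ := MulAction.mem_stabilizer_iff.2 hh
    refine huniq (ρ (h⁻¹ * n * h) u - u) _ _
      (hlam _ (by have := hNn.conj_mem' n hn h; exact this)) ?_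
    have h1 : ρ (h⁻¹ * n * h) u - u = ρ h⁻¹ (ρ n u - u) := by
      have h2 : ρ n (ρ h u - u) = ρ h u - u := hust h hhst n hn
      rw [map_sub] at h2
      rw [hmulapp, hmulapp, map_sub]
      have h3 : ρ n (ρ h u) = ρ h u - u + ρ n u := by rw [← h2]; abel
      have h5 : ρ h⁻¹ (ρ h u) = u := by
        rw [← hmulapp, inv_mul_cancel, map_one, Module.End.one_apply]
      rw [h3, map_add, map_sub, h5]
      abel
    rw [h1]
    have h6 := hZs h⁻¹ _ (hlam n hn)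
    rw [map_sub, map_smul] at h6
    have h7 := Z.smul_mem (lam n) (hest h⁻¹)
    have h8 := Z.add_mem h6 h7
    rwa [smul_sub, sub_add_sub_cancel] at h8
  · obtain ⟨a, ha, q, hq, haq⟩ := hF.mul v₀ n₀ hn₀
    refine ⟨a, ha, fun h0 => hn₀Z ?_⟩
    have h1 := hadd a (hF.Ale v₀ ha) q (hF.Qle v₀ hq)
    rw [← haq, h0, hQ0 q hq, add_zero] at h1
    have h2 := hlam n₀ hn₀
    rwa [h1, zero_smul, sub_zero] at h2

end LibKS
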