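import Pool.Agent.LibKSF.F3

set_option autoImplicit false

namespace LibKS

section

variable {p : ℕ} [Fact p.Prime] {P : Type} [Group P] {U : Type} [AddCommGroup U]
  [Module (ZMod p) U]

/-- One step: apply an element of the group. -/
private theorem F4_step (ρ : P →* Module.End (ZMod p) U) {e : U} {Z : Submodule (ZMod p) U}
    (hZ : ∀ g : P, ∀ z ∈ Z, ρ g z ∈ Z) (he : ∀ g : P, ρ g e - e ∈ Z) (y : P) {X Y : U}
    {κ : ZMod p} (h : X - Y - κ • e ∈ Z) : ρ y X - ρ y Y - κ • e ∈ Z := by
  have h1 := hZ y _ h
  have h2 := Z.smul_mem κ (he y)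
  have h3 := Z.add_mem h1 h2
  have : ρ y (X - Y - κ • e) + κ • (ρ y e - e) = ρ y X - ρ y Y - κ • e := by
    rw [map_sub, map_sub, map_smul, smul_sub]
    abel
  rwa [this] at h3

private theorem F4_add {e : U} {Z : Submodule (ZMod p) U} {X Y T : U} {κ κ' : ZMod p}
    (h : X - Y - κ • e ∈ Z) (h' : Y - T - κ' • e ∈ Z) : X - T - (κ + κ') • e ∈ Z := by
  have h3 := Z.add_mem h h'
  have : X - Y - κ • e + (Y - T - κ' • e) = X - T - (κ + κ') • e := by
    rw [add_smul]
    abel
  rwa [this] at h3

private theorem F4_sum {ι : Type} (f : ι →₀ ZMod p) (A B : ι → U) (M : ι → ZMod p) (c : ZMod p)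
    (e : U) : Finsupp.linearCombination (ZMod p) (fun s => A s - B s - (c * M s) • e) f =
      Finsupp.linearCombination (ZMod p) A f - Finsupp.linearCombination (ZMod p) B f -
        (c * Finsupp.linearCombination (ZMod p) M f) • e := by
  induction f using Finsupp.induction_linear with
  | zero => simp
  | add f g hf hg =>
    rw [map_add, map_add, map_add, map_add, hf, hg, mul_add, add_smul]
    abel
  | single a b =>
    simp only [Finsupp.linearCombination_single, smul_sub, smul_smul, smul_eq_mul]
    congr 2
    ring

end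

open Classical in
/-- The computation: the Fox derivatives vanish on the permutation module. -/
theorem fox_vanish (p : ℕ) [Fact p.Prime] {k : ℕ} {P : Type} [Group P] [Finite P]
    (hP : IsPGroup p P) {Ω : Type} [MulAction P Ω] {N : Subgroup P} {A Q : Ω → Subgroup P}
    (hF : Fam N A Q) {U : Type} [AddCommGroup U] [Module (ZMod p) U] [Finite U]
    (ρ : P →* Module.End (ZMod p) U) (v₀ : Ω)
    (hne : ∃ u : U, (∀ q ∈ Q v₀, ρ q u = u) ∧ ∃ n ∈ N, ρ n u ≠ u)
    (f : FA p k)
    (hf : ∀ (g : Fin k → P) (u : U),
      Finsupp.linearCombination (ZMod p) (fun s => ρ (W g s) u) f = 0)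
    (i : Fin k) (g : Fin k → P) (v : Ω) :
    Finsupp.linearCombination (ZMod p)
      (fun s => if W g s • v₀ = v then (1 : ZMod p) else 0) (foxL p i f) = 0 := by
  obtain ⟨u, e, Z, lam, hZ, heZ, he, hlam, hadd, hQ0, hstab, a0, ha0, ha0ne⟩ :=
    exists_data p hP hF ρ v₀ hne
  by_cases horb : ∃ g₀ : P, g₀ • v₀ = v
  swap
  · have : (fun s : List (Fin k × Bool) => if W g s • v₀ = v then (1 : ZMod p) else 0) =
        fun _ => 0 := by
      funext s
      rw [if_neg]
      intro h
      exact horb ⟨_, h⟩
    rw [this]
    simp [Finsupp.linearCombination_apply]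
  obtain ⟨g₀, hg₀⟩ := horb
  set a := g₀ * a0 * g₀⁻¹ with ha
  have haA : a ∈ A v := by
    have := hF.Aconj g₀ v₀ a0 ha0
    rwa [hg₀] at this
  have haN : a ∈ N := hF.Ale v haA
  have hNn := hF.normal
  set c := lam a0 with hc
  have ha0N : a0 ∈ N := hF.Ale _ ha0
  have hconjN : ∀ h : P, h⁻¹ * a * h ∈ N := by
    intro h
    have := hNn.conj_mem a haN h⁻¹
    simpa using this
  have htau : ∀ h : P, lam (h⁻¹ * a * h) = if h • v₀ = v then c else 0 := by
    intro h
    by_cases hv : h • v₀ = v
    · rw [if_pos hv]
      have h1 : (g₀⁻¹ * h) • v₀ = v₀ := by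
        rw [mul_smul, hv, ← hg₀, inv_smul_smul]
      have h2 := hstab (g₀⁻¹ * h) h1 a0 ha0N
      rw [hc, ← h2]
      congr 1
      rw [ha]
      group
    · rw [if_neg hv]
      apply hQ0
      have h1 : h⁻¹ • v ≠ v₀ := by
        intro h2
        apply hv
        rw [← h2, smul_inv_smul]
      have h3 := hF.Aconj h⁻¹ v a haA
      rw [inv_inv] at h3
      exact hF.AQ _ _ h1 h3
  have hlam1 : lam 1 = 0 := by
    have := hadd 1 N.one_mem 1 N.one_mem
    rw [mul_one] at this
    exact left_eq_add.mp this
  have hlaminv : ∀ n ∈ N, lam n⁻¹ = - lam n := by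
    intro n hn
    have := hadd n hn n⁻¹ (N.inv_mem hn)
    rw [mul_inv_cancel, hlam1] at this
    exact (neg_eq_of_add_eq_zero_right this.symm).symm
  have hkey : ∀ h : P, ρ (a * h) u - ρ h u - (lam (h⁻¹ * a * h)) • e ∈ Z := by
    intro h
    have h1 := hlam _ (hconjN h)
    have h2 := F4_step ρ hZ he h h1
    have h3 : ρ h (ρ (h⁻¹ * a * h) u) = ρ (a * h) u := by
      rw [← Module.End.mul_apply, ← map_mul]
      congr 2
      group
    rwa [h3] at h2
  have hkey' : ∀ h : P, ρ (a⁻¹ * h) u - ρ h u - (- lam (h⁻¹ * a * h)) • e ∈ Z := by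
    intro h
    have h0 : (h⁻¹ * a * h)⁻¹ = h⁻¹ * a⁻¹ * h := by group
    have h1 := hlam _ (N.inv_mem (hconjN h))
    rw [hlaminv _ (hconjN h), h0] at h1
    have h2 := F4_step ρ hZ he h h1
    have h3 : ρ h (ρ (h⁻¹ * a⁻¹ * h) u) = ρ (a⁻¹ * h) u := by
      rw [← Module.End.mul_apply, ← map_mul]
      congr 2
      group
    rwa [h3] at h2
  set m : List (Fin k × Bool) → ZMod p := fun s => if W g s • v₀ = v then (1 : ZMod p) else 0
    with hm
  have hctau : ∀ s, lam ((W g s)⁻¹ * a * W g s) = c * m s := by
    intro s
    rw [htau, hm]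
    by_cases h : W g s • v₀ = v <;> simp [h]
  set M : List (Fin k × Bool) → ZMod p := fun s =>
    Finsupp.linearCombination (ZMod p) m (fox p i s) with hM
  set g' : Fin k → P := Function.update g i (g i * a) with hg'
  have hclaim : ∀ s : List (Fin k × Bool),
      ρ (W g' s) u - ρ (W g s) u - (c * M s) • e ∈ Z := by
    intro s
    induction s with
    | nil => simp [W, hM, fox]
    | cons l s ih =>
      obtain ⟨j, b⟩ := l
      by_cases hji : j = i
      · subst hji
        have hgj : g' j = g j * a := by simp [hg']
        cases b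
        · -- false
          have e1 : W g' ((j, false) :: s) = (g j * a)⁻¹ * W g' s := by simp [W, hgj]
          have e2 : W g ((j, false) :: s) = (g j)⁻¹ * W g s := by simp [W]
          have h1 := F4_step ρ hZ he (g j * a)⁻¹ ih
          have h2 := hkey' (W g ((j, false) :: s))
          rw [hctau] at h2
          have h3 : ρ (g j * a)⁻¹ (ρ (W g s) u) = ρ (a⁻¹ * W g ((j, false) :: s)) u := by
            rw [← Module.End.mul_apply, ← map_mul, e2]
            congr 2
            group
          rw [h3] at h1
          have h4 := F4_add h1 h2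
          have h5 : M ((j, false) :: s) = - m ((j, false) :: s) + M s := by
            simp [hM, fox]
          rw [e1, map_mul, Module.End.mul_apply]
          have h6 : c * M ((j, false) :: s) = c * M s + - (c * m ((j, false) :: s)) := by
            rw [h5]; ring
          rw [h6]
          exact h4
        · -- true
          have e1 : W g' ((j, true) :: s) = (g j * a) * W g' s := by simp [W, hgj]
          have e2 : W g ((j, true) :: s) = g j * W g s := by simp [W]
          have h1 := F4_step ρ hZ he (g j * a) ih
          have h2 := F4_step ρ hZ he (g j) (hkey (W g s))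
          rw [hctau] at h2
          have h3 : ρ (g j * a) (ρ (W g s) u) = ρ (g j) (ρ (a * W g s) u) := by
            rw [← Module.End.mul_apply, ← map_mul, ← Module.End.mul_apply, ← map_mul]
            congr 2
            group
          rw [h3] at h1
          have h4 := F4_add h1 h2
          have h5 : M ((j, true) :: s) = m s + M s := by
            simp [hM, fox]
          have e3 : ρ (W g' ((j, true) :: s)) u = ρ (g j * a) (ρ (W g' s) u) := by
            rw [e1, map_mul, Module.End.mul_apply]
          have e4 : ρ (W g ((j, true) :: s)) u = ρ (g j) (ρ (W g s) u) := by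
            rw [e2, map_mul, Module.End.mul_apply]
          have h6 : c * M ((j, true) :: s) = c * M s + c * m s := by
            rw [h5]; ring
          rw [h6, e3, e4]
          exact h4
      · have hgj : g' j = g j := by simp [hg', hji]
        have e1 : M ((j, b) :: s) = M s := by
          simp [hM, fox, hji]
        rw [e1]
        cases b
        · have e2 : W g' ((j, false) :: s) = (g j)⁻¹ * W g' s := by simp [W, hgj]
          have e3 : W g ((j, false) :: s) = (g j)⁻¹ * W g s := by simp [W]
          rw [e2, e3, map_mul, map_mul, Module.End.mul_apply, Module.End.mul_apply]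
          exact F4_step ρ hZ he _ ih
        · have e2 : W g' ((j, true) :: s) = g j * W g' s := by simp [W, hgj]
          have e3 : W g ((j, true) :: s) = g j * W g s := by simp [W]
          rw [e2, e3, map_mul, map_mul, Module.End.mul_apply, Module.End.mul_apply]
          exact F4_step ρ hZ he _ ih
  have hsum : Finsupp.linearCombination (ZMod p)
      (fun s => ρ (W g' s) u - ρ (W g s) u - (c * M s) • e) f ∈ Z := by
    rw [Finsupp.linearCombination_apply, Finsupp.sum]
    exact Submodule.sum_mem _ fun s _ => Z.smul_mem _ (hclaim s)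
  rw [F4_sum, hf g' u, hf g u, sub_zero, zero_sub] at hsum
  have hsum' : (c * Finsupp.linearCombination (ZMod p) M f) • e ∈ Z := by
    have := Z.neg_mem hsum
    rwa [neg_neg] at this
  have hzero : c * Finsupp.linearCombination (ZMod p) M f = 0 := by
    by_contra hne0
    apply heZ
    have := Z.smul_mem (c * Finsupp.linearCombination (ZMod p) M f)⁻¹ hsum'
    rwa [smul_smul, inv_mul_cancel₀ hne0, one_smul] at this
  have hfin : Finsupp.linearCombination (ZMod p) M f = 0 :=
    (mul_eq_zero.mp hzero).resolve_left ha0ne
  rw [← hfin, foxL]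
  have hcomp : ∀ f : FA p k, Finsupp.linearCombination (ZMod p) m
      (Finsupp.linearCombination (ZMod p) (fox p i) f) =
      Finsupp.linearCombination (ZMod p) M f := by
    intro f
    induction f using Finsupp.induction_linear with
    | zero => simp
    | add f g hf hg => rw [map_add, map_add, map_add, hf, hg]
    | single a b => simp [hM]
  exact hcomp f

end LibKS
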