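import Mathlib

set_option autoImplicit false

namespace LibKS

/-- `X` is a Sylow `p`-subgroup of the subgroup `N`. -/
structure MaxP (p : ℕ) {G : Type} [Group G] (X N : Subgroup G) : Prop where
  le : X ≤ N
  isP : IsPGroup p X
  max : ∀ Y : Subgroup G, Y ≤ N → IsPGroup p Y → X ≤ Y → Y = X

theorem Sylow.maxP {p : ℕ} {G : Type} [Group G] (P : Sylow p G) :
    MaxP p (P : Subgroup G) ⊤ :=
  ⟨le_top, P.isPGroup', fun Y _ hY h => P.is_maximal' hY h⟩

/-- The Sylow subgroup of `↥N` attached to a maximal `p`-subgroup of `N`. -/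
private def F5_syl {p : ℕ} {G : Type} [Group G] {X N : Subgroup G} (hX : MaxP p X N) :
    Sylow p N where
  toSubgroup := X.subgroupOf N
  isPGroup' := hX.isP.comap_of_injective N.subtype N.subtype_injective
  is_maximal' := by
    intro Q hQ hle
    have h1 : IsPGroup p (Q.map N.subtype) := hQ.map N.subtype
    have h2 : Q.map N.subtype ≤ N := Subgroup.map_subtype_le Q
    have h3 : X ≤ Q.map N.subtype := by
      intro x hx
      exact ⟨⟨x, hX.le hx⟩, hle (by simpa [Subgroup.mem_subgroupOf] using hx), rfl⟩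
    have h4 := hX.max _ h2 h1 h3
    rw [← h4]
    exact (Subgroup.comap_map_eq_self_of_injective N.subtype_injective Q).symm

private theorem F5_syl_coe {p : ℕ} {G : Type} [Group G] {X N : Subgroup G}
    (hX : MaxP p X N) : ((F5_syl hX : Sylow p N) : Subgroup N) = X.subgroupOf N := rfl

private theorem F5_mem_syl {p : ℕ} {G : Type} [Group G] {X N : Subgroup G}
    (hX : MaxP p X N) (x : N) : x ∈ (F5_syl hX : Sylow p N) ↔ (x : G) ∈ X := by
  show x ∈ X.subgroupOf N ↔ _
  exact Subgroup.mem_subgroupOf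

private theorem F5_maxP_of_syl {p : ℕ} {G : Type} [Group G] {N : Subgroup G}
    (S : Sylow p N) : MaxP p ((S : Subgroup N).map N.subtype) N := by
  refine ⟨Subgroup.map_subtype_le _, S.isPGroup'.map N.subtype, ?_⟩
  intro Y hYN hY hle
  have h1 : IsPGroup p (Y.subgroupOf N) :=
    hY.comap_of_injective N.subtype N.subtype_injective
  have h2 : (S : Subgroup N) ≤ Y.subgroupOf N := by
    intro x hx
    exact Subgroup.mem_subgroupOf.2 (hle ⟨x, hx, rfl⟩)
  have h3 := S.is_maximal' h1 h2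
  rw [← h3]
  apply le_antisymm
  · intro y hy
    exact ⟨⟨y, hYN hy⟩, Subgroup.mem_subgroupOf.2 hy, rfl⟩
  · rintro _ ⟨x, hx, rfl⟩
    exact Subgroup.mem_subgroupOf.1 hx

/-- Every `p`-subgroup is contained in a conjugate of a given Sylow subgroup. -/
theorem MaxP.exists_le_conj {p : ℕ} [Fact p.Prime] {G : Type} [Group G] [Finite G]
    {X Y N : Subgroup G} (hX : MaxP p X N) (hYN : Y ≤ N) (hY : IsPGroup p Y) :
    ∃ n ∈ N, Y ≤ X.map (MulAut.conj n).toMonoidHom := by
  have h1 : IsPGroup p (Y.subgroupOf N) :=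
    hY.comap_of_injective N.subtype N.subtype_injective
  obtain ⟨Q, hQ⟩ := h1.exists_le_sylow
  obtain ⟨n, hn⟩ := MulAction.exists_smul_eq N (F5_syl hX) Q
  refine ⟨n, n.2, ?_⟩
  intro y hy
  have h2 : (⟨y, hYN hy⟩ : N) ∈ (Q : Subgroup N) := hQ (Subgroup.mem_subgroupOf.2 hy)
  rw [← hn, Sylow.coe_subgroup_smul] at h2
  obtain ⟨x, hx, hxe⟩ := h2
  have h4 : (x : G) ∈ X := (F5_mem_syl hX x).1 hx
  refine ⟨(x : G), h4, ?_⟩
  have h5 : ((MulAut.conj n x : N) : G) = y := congrArg Subtype.val hxe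
  simpa [MulAut.conj_apply] using h5

private theorem F5_conj_injective {G : Type} [Group G] (n : G) :
    Function.Injective (MulAut.conj n).toMonoidHom := (MulAut.conj n).injective

private theorem F5_map_conj_le {G : Type} [Group G] {X N : Subgroup G} (hX : X ≤ N) {n : G}
    (hn : n ∈ N) : X.map (MulAut.conj n).toMonoidHom ≤ N := by
  rintro _ ⟨x, hx, rfl⟩
  exact N.mul_mem (N.mul_mem hn (hX hx)) (N.inv_mem hn)

private theorem F5_map_inv {G : Type} [Group G] (X : Subgroup G) (n : G) :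
    (X.map (MulAut.conj n).toMonoidHom).map (MulAut.conj n⁻¹).toMonoidHom = X := by
  ext y
  constructor
  · rintro ⟨_, ⟨x, hx, rfl⟩, rfl⟩
    simpa [MulAut.conj_apply, mul_assoc] using hx
  · intro hy
    exact ⟨n * y * n⁻¹, ⟨y, hy, rfl⟩, by simp [MulAut.conj_apply, mul_assoc]⟩

private theorem F5_map_inv' {G : Type} [Group G] (X : Subgroup G) (n : G) :
    (X.map (MulAut.conj n⁻¹).toMonoidHom).map (MulAut.conj n).toMonoidHom = X := by
  simpa using F5_map_inv X n⁻¹

/-- Conjugates inside `N` of Sylow subgroups are Sylow subgroups. -/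
private theorem F5_conj {p : ℕ} {G : Type} [Group G] {X N : Subgroup G}
    (hX : MaxP p X N) {n : G} (hn : n ∈ N) :
    MaxP p (X.map (MulAut.conj n).toMonoidHom) N := by
  refine ⟨F5_map_conj_le hX.le hn, hX.isP.map _, ?_⟩
  intro Y hYN hY hle
  have h1 : X ≤ Y.map (MulAut.conj n⁻¹).toMonoidHom := by
    have := Subgroup.map_mono (f := (MulAut.conj n⁻¹).toMonoidHom) hle
    rwa [F5_map_inv] at this
  have h2 := hX.max _ (F5_map_conj_le hYN (N.inv_mem hn)) (hY.map _) h1
  rw [← h2, F5_map_inv']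

/-- Conjugacy of Sylow subgroups. -/
theorem MaxP.exists_conj {p : ℕ} [Fact p.Prime] {G : Type} [Group G] [Finite G]
    {X Y N : Subgroup G} (hX : MaxP p X N) (hY : MaxP p Y N) :
    ∃ n ∈ N, X.map (MulAut.conj n).toMonoidHom = Y := by
  obtain ⟨n, hn, hle⟩ := hX.exists_le_conj hY.le hY.isP
  exact ⟨n, hn, hY.max _ (F5_map_conj_le hX.le hn) (hX.isP.map _) hle⟩

/-- A `p`-subgroup with the same order as a Sylow subgroup is a Sylow subgroup. -/
theorem MaxP.of_card {p : ℕ} [Fact p.Prime] {G : Type} [Group G] [Finite G]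
    {X Y N : Subgroup G} (hX : MaxP p X N) (hYN : Y ≤ N) (hY : IsPGroup p Y)
    (h : Nat.card Y = Nat.card X) : MaxP p Y N := by
  obtain ⟨n, hn, hle⟩ := hX.exists_le_conj hYN hY
  have h1 : Nat.card (X.map (MulAut.conj n).toMonoidHom) = Nat.card X :=
    Subgroup.card_map_of_injective (F5_conj_injective n)
  have h2 : Y = X.map (MulAut.conj n).toMonoidHom :=
    Subgroup.eq_of_le_of_card_ge hle (by rw [h1, h])
  rw [h2]
  exact F5_conj hX hn

/-- The intersection with a normal subgroup is a Sylow subgroup of it. -/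
theorem MaxP.inf {p : ℕ} [Fact p.Prime] {G : Type} [Group G] [Finite G]
    {X N C : Subgroup G} (hX : MaxP p X N) (hCN : C ≤ N)
    (hC : ∀ n ∈ N, ∀ c ∈ C, n * c * n⁻¹ ∈ C) : MaxP p (X ⊓ C) C := by
  refine ⟨inf_le_right, hX.isP.to_le inf_le_left, ?_⟩
  intro Y hYC hY hle
  obtain ⟨n, hn, hYn⟩ := hX.exists_le_conj (hYC.trans hCN) hY
  -- `Y ≤ (X ⊓ C)^n`, so `|Y| ≤ |X ⊓ C|`
  have h1 : Y ≤ (X ⊓ C).map (MulAut.conj n).toMonoidHom := by
    intro y hy
    obtain ⟨x, hx, hxy⟩ := hYn hy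
    have h2 : n * x * n⁻¹ = y := hxy
    have h3 : x = n⁻¹ * y * (n⁻¹)⁻¹ := by rw [← h2]; group
    refine ⟨x, ⟨hx, ?_⟩, hxy⟩
    show x ∈ C
    rw [h3]
    exact hC _ (N.inv_mem hn) _ (hYC hy)
  have h4 : Nat.card ((X ⊓ C).map (MulAut.conj n).toMonoidHom) = Nat.card (X ⊓ C : Subgroup G) :=
    Subgroup.card_map_of_injective (F5_conj_injective n)
  have h5 : Nat.card Y ≤ Nat.card (X ⊓ C : Subgroup G) := by
    rw [← h4]
    exact Subgroup.card_le_of_le h1
  exact (Subgroup.eq_of_le_of_card_ge hle h5).symm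

end LibKS
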