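import Pool.Agent.LibKSF.F5

set_option autoImplicit false

namespace LibKS

private theorem F6_map_map {H : Type} [Group H] (S : Subgroup H) (a b : H) :
    (S.map (MulAut.conj b).toMonoidHom).map (MulAut.conj a).toMonoidHom =
      S.map (MulAut.conj (a * b)).toMonoidHom := by
  rw [Subgroup.map_map]
  congr 1
  ext x
  simp [mul_assoc]

private theorem F6_map_one {H : Type} [Group H] (S : Subgroup H) :
    S.map (MulAut.conj (1 : H)).toMonoidHom = S := by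
  ext x
  simp

private theorem F6_map_self {H : Type} [Group H] (S : Subgroup H) {q : H} (hq : q ∈ S) :
    S.map (MulAut.conj q).toMonoidHom = S := by
  have hle : ∀ q ∈ S, S.map (MulAut.conj q).toMonoidHom ≤ S := by
    rintro q hq _ ⟨y, hy, rfl⟩
    exact S.mul_mem (S.mul_mem hq hy) (S.inv_mem hq)
  refine le_antisymm (hle q hq) ?_
  intro x hx
  exact ⟨q⁻¹ * x * q, S.mul_mem (S.mul_mem (S.inv_mem hq) hx) hq, by simp [mul_assoc]⟩

private theorem F6_card_map {H : Type} [Group H] (S : Subgroup H) (a : H) :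
    Nat.card (S.map (MulAut.conj a).toMonoidHom) = Nat.card S :=
  (Nat.card_congr
    (S.equivMapOfInjective (MulAut.conj a).toMonoidHom (MulAut.conj a).injective).toEquiv).symm

/-- A Frattini argument. -/
theorem exists_normalize (p : ℕ) [Fact p.Prime] {H : Type} [Group H] [Finite H]
    {K A Q : Subgroup H} (hK : K.Normal) (hA : MaxP p A K) (hAQ : A ≤ Q) (hQ : IsPGroup p Q)
    (e : H) (he : ∀ q ∈ Q, e * q * e⁻¹ * q⁻¹ ∈ K) :
    ∃ r ∈ K, Q.map (MulAut.conj (r⁻¹ * e)).toMonoidHom = Q := by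
  have hmem : ∀ x ∈ K ⊔ Q, ∃ k ∈ K, ∃ q ∈ Q, x = k * q := by
    intro x hx
    have hx' : x ∈ ((K ⊔ Q : Subgroup H) : Set H) := hx
    rw [Subgroup.normal_mul K Q] at hx'
    obtain ⟨k, hk, q, hq, hkq⟩ := Set.mem_mul.1 hx'
    exact ⟨k, hk, q, hq, hkq.symm⟩
  have hQmax : MaxP p Q (K ⊔ Q) := by
    refine ⟨le_sup_right, hQ, fun Y hYM hY hQY => le_antisymm ?_ hQY⟩
    intro y hy
    obtain ⟨k, hk, q, hq, rfl⟩ := hmem y (hYM hy)
    have hkY : k ∈ Y := by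
      have := Y.mul_mem hy (Y.inv_mem (hQY hq))
      rwa [mul_inv_cancel_right] at this
    have hYK : Y ⊓ K = A := by
      refine hA.max _ inf_le_right (hY.to_le inf_le_left) ?_
      exact le_inf (hAQ.trans hQY) hA.le
    have hkA : k ∈ A := by rw [← hYK]; exact ⟨hkY, hk⟩
    exact Q.mul_mem (hAQ hkA) hq
  have hQ'M : Q.map (MulAut.conj e).toMonoidHom ≤ K ⊔ Q := by
    rintro _ ⟨q, hq, rfl⟩
    have h1 : (MulAut.conj e).toMonoidHom q = (e * q * e⁻¹ * q⁻¹) * q := by simp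
    rw [h1]
    exact Subgroup.mul_mem_sup (he q hq) hq
  have hQ'max : MaxP p (Q.map (MulAut.conj e).toMonoidHom) (K ⊔ Q) :=
    hQmax.of_card hQ'M (hQ.map _) (F6_card_map Q e)
  obtain ⟨m, hm, hmQ⟩ := hQmax.exists_conj hQ'max
  obtain ⟨r, hr, q, hq, rfl⟩ := hmem m hm
  refine ⟨r, hr, ?_⟩
  rw [← F6_map_map, F6_map_self Q hq] at hmQ
  rw [← F6_map_map, ← hmQ, F6_map_map, inv_mul_cancel, F6_map_one]

/-- If the fixed points of `P ⊓ C` are the fixed points of `P ⊓ N`, then the `p`-elements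
normalising `P ⊓ C` fix them. -/
theorem pelement_fixes (p : ℕ) [Fact p.Prime] {H : Type} [Group H] [Finite H]
    (P : Sylow p H) {N C : Subgroup H} (hN : N.Normal) (hCN : C ≤ N)
    (hC : ∀ n ∈ N, ∀ c ∈ C, n * c * n⁻¹ ∈ C)
    {U : Type} [AddCommGroup U] [Module (ZMod p) U]
    (ρ : H →* Module.End (ZMod p) U)
    (hU : ∀ u : U, (∀ q ∈ (P : Subgroup H) ⊓ C, ρ q u = u) →
      ∀ n ∈ (P : Subgroup H) ⊓ N, ρ n u = u)
    {x : H} (hxN : x ∈ N) (hx : ∃ n : ℕ, x ^ p ^ n = 1)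
    (hxQ : ((P : Subgroup H) ⊓ C).map (MulAut.conj x).toMonoidHom = (P : Subgroup H) ⊓ C)
    {u : U} (hu : ∀ q ∈ (P : Subgroup H) ⊓ C, ρ q u = u) : ρ x u = u := by
  set Q0 : Subgroup H := (P : Subgroup H) ⊓ C with hQ0
  have hmulapp : ∀ (g h : H) (x : U), ρ (g * h) x = ρ g (ρ h x) := fun g h x => by
    rw [map_mul, Module.End.mul_apply]
  have hQ0p : IsPGroup p Q0 := P.isPGroup'.to_le inf_le_left
  have hxp : IsPGroup p (Subgroup.zpowers x) := by
    rintro ⟨y, hy⟩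
    obtain ⟨k, rfl⟩ := Subgroup.mem_zpowers_iff.1 hy
    obtain ⟨n, hn⟩ := hx
    refine ⟨n, Subtype.ext ?_⟩
    rw [Subgroup.coe_pow, Subgroup.coe_one]
    change (x ^ k) ^ p ^ n = 1
    rw [← zpow_natCast, ← zpow_mul, mul_comm, zpow_mul, zpow_natCast, hn, one_zpow]
  have hxnorm : Subgroup.zpowers x ≤ Subgroup.normalizer (Q0 : Set H) := by
    rw [Subgroup.zpowers_le, Subgroup.mem_normalizer_iff_map_conj_eq]
    exact hxQ
  have hYp : IsPGroup p (Subgroup.zpowers x ⊔ Q0 : Subgroup H) :=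
    hxp.to_sup_of_normal_right' hQ0p hxnorm
  have hYN : Subgroup.zpowers x ⊔ Q0 ≤ N := by
    refine sup_le ?_ (inf_le_right.trans hCN)
    rw [Subgroup.zpowers_le]
    exact hxN
  have hPN : MaxP p ((P : Subgroup H) ⊓ N) N :=
    (Sylow.maxP P).inf le_top (fun n _ c hc => hN.conj_mem c hc n)
  obtain ⟨n, hn, hYle⟩ := hPN.exists_le_conj hYN hYp
  have hQ0le : Q0 ≤ Q0.map (MulAut.conj n).toMonoidHom := by
    intro q hq
    obtain ⟨q', hq', hqq'⟩ := hYle (Subgroup.mem_sup_right hq)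
    refine ⟨q', ⟨hq'.1, ?_⟩, hqq'⟩
    have h1 := hC n⁻¹ (N.inv_mem hn) q hq.2
    have h2 : n⁻¹ * q * n⁻¹⁻¹ = q' := by
      rw [← hqq']
      simp [mul_assoc]
    rwa [h2] at h1
  have hQ0eq : Q0 = Q0.map (MulAut.conj n).toMonoidHom :=
    Subgroup.eq_of_le_of_card_ge hQ0le (le_of_eq (F6_card_map Q0 n))
  have hu' : ∀ q ∈ Q0, ρ q (ρ n⁻¹ u) = ρ n⁻¹ u := by
    intro q hq
    have h1 : n * q * n⁻¹ ∈ Q0 := by
      rw [hQ0eq]
      exact ⟨q, hq, rfl⟩
    have h2 : q * n⁻¹ = n⁻¹ * (n * q * n⁻¹) := by group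
    rw [← hmulapp, h2, hmulapp, hu _ h1]
  have hu'' := hU _ hu'
  obtain ⟨y, hy, hyx⟩ := hYle (Subgroup.mem_sup_left (Subgroup.mem_zpowers x))
  have h3 := hu'' y hy
  have h4 : x = n * y * n⁻¹ := hyx.symm
  rw [h4, hmulapp, hmulapp, h3, ← hmulapp, mul_inv_cancel, map_one, Module.End.one_apply]

end LibKS
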