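import Pool.Agent.LibKSF.F2

set_option autoImplicit false

namespace LibKS

/-- An element of order prime to `p` which acts trivially on a submodule and on the quotient acts
trivially. -/
theorem coprime_trivial (p : ℕ) [Fact p.Prime] {H : Type} [Group H] {V : Type} [AddCommGroup V]
    [Module (ZMod p) V] (ρ : H →* Module.End (ZMod p) V) {s : H}
    (hs : Nat.Coprime p (orderOf s)) (W : Submodule (ZMod p) V)
    (h : ∀ w ∈ W, ρ s w = w) {v : V} (hv : ρ s v - v ∈ W) : ρ s v = v := by
  set w := ρ s v - v with hw
  have h1 : ρ s v = v + w := by rw [hw]; abel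
  have h2 : ∀ n : ℕ, ρ (s ^ n) v = v + (n : ZMod p) • w := by
    intro n
    induction n with
    | zero => simp
    | succ n ih =>
      rw [pow_succ', map_mul, Module.End.mul_apply, ih, map_add, map_smul, h w hv, h1]
      push_cast
      rw [add_smul, one_smul]
      abel
  have h3 := h2 (orderOf s)
  rw [pow_orderOf_eq_one, map_one, Module.End.one_apply] at h3
  have h4 : (orderOf s : ZMod p) • w = 0 := by
    have : v + (orderOf s : ZMod p) • w = v + 0 := by rw [← h3, add_zero]
    exact add_left_cancel this
  have h5 : IsUnit (orderOf s : ZMod p) := (ZMod.isUnit_iff_coprime _ _).mpr hs.symm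
  have h6 : w = 0 := by
    obtain ⟨c, hc⟩ := h5
    have h7 : (↑c⁻¹ : ZMod p) • ((orderOf s : ZMod p) • w) = (↑c⁻¹ : ZMod p) • (0 : V) := by
      rw [h4]
    rw [← hc, smul_smul, Units.inv_mul, one_smul, smul_zero] at h7
    exact h7
  rw [h1, h6, add_zero]

end LibKS
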